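import Pool.Agent.H295R2.Beu.Defs

/-!
# Task B2: the remainder function of the natural approximant
-/

set_option autoImplicit false

open MeasureTheory Filter Topology Set

namespace Pool.Agent.H814R2.BeuR

open Pool.Agent.H295R2 Pool.Agent.H295R2.Beu

theorem sum_mu_div (K : ℕ) (hK : 1 ≤ K) :
    ∑ n ∈ Finset.Ioc 0 K, mu n * ((K / n : ℕ) : ℝ) = 1 := by
  have h1 := ArithmeticFunction.sum_Ioc_mul_zeta_eq_sum (R := ℤ) ArithmeticFunction.moebius K
  rw [ArithmeticFunction.moebius_mul_coe_zeta] at h1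
  have h2 : ∑ n ∈ Finset.Ioc 0 K, (1 : ArithmeticFunction ℤ) n = 1 := by
    rw [Finset.sum_eq_single 1]
    · simp
    · intro b _ hb
      exact ArithmeticFunction.one_apply_ne hb
    · intro h
      exact absurd (Finset.mem_Ioc.2 ⟨Nat.one_pos, hK⟩) h
  rw [h2] at h1
  have h3 := congrArg (fun z : ℤ => (z : ℝ)) h1
  simp only [Int.cast_one, Int.cast_sum, Int.cast_mul, Int.cast_natCast] at h3
  exact h3.symm

theorem sum_mu_floor (N : ℕ) (y : ℝ) (h1 : 1 ≤ y) (hN : y < N) :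
    ∑ n ∈ Finset.Icc 1 N, mu n * ((⌊y / n⌋ : ℤ) : ℝ) = 1 := by
  have hy : 0 ≤ y := by linarith
  have hK1 : 1 ≤ ⌊y⌋₊ := Nat.le_floor (by simpa using h1)
  have hKN : ⌊y⌋₊ ≤ N := by
    have := Nat.floor_le hy
    have h2 : ((⌊y⌋₊ : ℕ) : ℝ) ≤ N := by linarith
    exact_mod_cast h2
  rw [← sum_mu_div ⌊y⌋₊ hK1]
  have hsub : Finset.Ioc 0 ⌊y⌋₊ ⊆ Finset.Icc 1 N := by
    intro n hn
    rw [Finset.mem_Ioc] at hn
    rw [Finset.mem_Icc]
    omega
  have hval : ∀ n ∈ Finset.Icc 1 N, ((⌊y / n⌋ : ℤ) : ℝ) = ((⌊y⌋₊ / n : ℕ) : ℝ) := by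
    intro n hn
    rw [← Nat.floor_div_natCast, natCast_floor_eq_intCast_floor (by positivity)]
  rw [Finset.sum_congr rfl fun n hn => by rw [hval n hn]]
  symm
  apply Finset.sum_subset hsub
  intro n hn hn2
  rw [Finset.mem_Icc] at hn
  rw [Finset.mem_Ioc] at hn2
  have : ⌊y⌋₊ / n = 0 := Nat.div_eq_of_lt (by omega)
  rw [this]
  simp

/-- B2a -/
theorem rZero : RZero := by
  intro N hN y h1 hyN
  have hN0 : (0 : ℝ) < N := by exact_mod_cast hN
  unfold RR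
  have h2 : Int.fract (y / N) = y / N := by
    rw [Int.fract_eq_self]
    exact ⟨by positivity, (div_lt_one hN0).2 hyN⟩
  have h3 : ∑ n ∈ Finset.Icc 1 N, mu n * Int.fract (y / n) =
      y * mm N - 1 := by
    rw [← sum_mu_floor N y h1 hyN]
    unfold mm
    rw [Finset.mul_sum, ← Finset.sum_sub_distrib]
    refine Finset.sum_congr rfl fun n _ => ?_
    unfold Int.fract
    ring
  rw [h2, h3]
  field_simp
  ring

theorem abs_mu_le (n : ℕ) : |mu n| ≤ 1 := by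
  unfold mu
  rw [← Int.cast_abs]
  exact_mod_cast ArithmeticFunction.abs_moebius_le_one

theorem abs_mm_le (N : ℕ) : |mm N| ≤ N := by
  unfold mm
  calc |∑ n ∈ Finset.Icc 1 N, mu n / n| ≤ ∑ n ∈ Finset.Icc 1 N, |mu n / n| :=
        Finset.abs_sum_le_sum_abs _ _
    _ ≤ ∑ n ∈ Finset.Icc 1 N, 1 := by
        refine Finset.sum_le_sum fun n hn => ?_
        rw [Finset.mem_Icc] at hn
        have hn1 : (1 : ℝ) ≤ n := by exact_mod_cast hn.1
        rw [abs_div, abs_of_nonneg (by linarith : (0:ℝ) ≤ n), div_le_one (by linarith)]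
        exact le_trans (abs_mu_le n) hn1
    _ = N := by simp

/-- B2b -/
theorem rBound : RBound := by
  intro N hN y
  have hN1 : (1 : ℝ) ≤ N := by exact_mod_cast hN
  have hf : ∀ x : ℝ, |Int.fract x| ≤ 1 := fun x => by
    rw [abs_of_nonneg (Int.fract_nonneg x)]
    exact (Int.fract_lt_one x).le
  have h1 : |∑ n ∈ Finset.Icc 1 N, mu n * Int.fract (y / n)| ≤ N := by
    calc |∑ n ∈ Finset.Icc 1 N, mu n * Int.fract (y / n)|
        ≤ ∑ n ∈ Finset.Icc 1 N, |mu n * Int.fract (y / n)| := Finset.abs_sum_le_sum_abs _ _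
      _ ≤ ∑ n ∈ Finset.Icc 1 N, 1 := by
          refine Finset.sum_le_sum fun n _ => ?_
          rw [abs_mul]
          exact mul_le_one₀ (abs_mu_le n) (abs_nonneg _) (hf _)
      _ = N := by simp
  have h2 : |N * mm N * Int.fract (y / N)| ≤ (N : ℝ) ^ 2 := by
    rw [abs_mul, abs_mul, abs_of_nonneg (by linarith : (0:ℝ) ≤ N)]
    have h3 : (N : ℝ) * |mm N| ≤ N * N := mul_le_mul_of_nonneg_left (abs_mm_le N) (by linarith)
    have h4 : (N : ℝ) * |mm N| * |Int.fract (y / N)| ≤ N * |mm N| * 1 :=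
      mul_le_mul_of_nonneg_left (hf _) (by positivity)
    nlinarith
  unfold RR
  have h3 : |1 + ∑ n ∈ Finset.Icc 1 N, mu n * Int.fract (y / n) - N * mm N * Int.fract (y / N)| ≤
      |1 + ∑ n ∈ Finset.Icc 1 N, mu n * Int.fract (y / n)| + |N * mm N * Int.fract (y / N)| :=
    abs_sub _ _
  have h4 : |1 + ∑ n ∈ Finset.Icc 1 N, mu n * Int.fract (y / n)| ≤
      |(1:ℝ)| + |∑ n ∈ Finset.Icc 1 N, mu n * Int.fract (y / n)| := abs_add_le _ _
  rw [abs_one] at h4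
  nlinarith

theorem inv_nat_cpow (n : ℕ) (s : ℂ) : (((1 / (n : ℝ) : ℝ)) : ℂ) ^ s = (n : ℂ) ^ (-s) := by
  rw [Complex.cpow_neg]
  push_cast
  rw [one_div, Complex.inv_cpow _ _ (by rw [Complex.natCast_arg]; exact Real.pi_pos.ne)]

theorem int_pow_zero_one (s : ℂ) (h1 : s.re < 1) :
    ∫ y in Ioo (0:ℝ) 1, (y : ℂ) ^ (-s) = 1 / (1 - s) := by
  rw [← integral_Ioc_eq_integral_Ioo, ← intervalIntegral.integral_of_le zero_le_one,
    integral_cpow (Or.inl (by simpa using h1))]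
  have hne : (1 : ℂ) - s ≠ 0 := by
    intro h
    have := congrArg Complex.re h
    simp at this
    linarith
  have hne2 : -s + 1 ≠ 0 := by
    rw [neg_add_eq_sub]; exact hne
  simp only [Complex.ofReal_one, Complex.one_cpow, Complex.ofReal_zero]
  rw [Complex.zero_cpow hne2, sub_zero, neg_add_eq_sub]

/-- the transform of `{y/n}` over `(1, ∞)` -/
theorem fract_part (h : FractMellin) (n : ℕ) (hn : 1 ≤ n) (s : ℂ) (h0 : 0 < s.re) (h1 : s.re < 1) :
    IntegrableOn (fun y : ℝ => ((Int.fract (y / n) : ℝ) : ℂ) * (y : ℂ) ^ (-s - 1)) (Ioi 1) ∧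
    ∫ y in Ioi (1:ℝ), ((Int.fract (y / n) : ℝ) : ℂ) * (y : ℂ) ^ (-s - 1) =
      -((n : ℂ) ^ (-s) * riemannZeta s / s) - (1 / n) * (1 / (1 - s)) := by
  have hn0 : (0 : ℝ) < n := by exact_mod_cast hn
  have hn1 : (1 : ℝ) ≤ n := by exact_mod_cast hn
  obtain ⟨hi, hv⟩ := h s h0 h1 (1 / n) (by positivity)
  have hfun : (fun v : ℝ => ((Int.fract (1 / (n : ℝ) * v) : ℝ) : ℂ) * (v : ℂ) ^ (-s - 1)) =
      fun y : ℝ => ((Int.fract (y / n) : ℝ) : ℂ) * (y : ℂ) ^ (-s - 1) := by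
    funext y
    rw [one_div, inv_mul_eq_div]
  rw [hfun] at hi hv
  rw [inv_nat_cpow] at hv
  have hu : Ioi (0 : ℝ) = Ioc 0 1 ∪ Ioi 1 := (Ioc_union_Ioi_eq_Ioi zero_le_one).symm
  have hd : Disjoint (Ioc (0 : ℝ) 1) (Ioi 1) := Set.disjoint_left.2 fun x hx hx2 =>
    absurd hx.2 (not_le.2 hx2)
  have hi1 := hi.mono_set (show Ioc (0 : ℝ) 1 ⊆ Ioi 0 from fun x hx => hx.1)
  have hi2 := hi.mono_set (show Ioi (1 : ℝ) ⊆ Ioi 0 from fun x hx =>
    Set.mem_Ioi.2 (lt_trans zero_lt_one (Set.mem_Ioi.1 hx)))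
  refine ⟨hi2, ?_⟩
  rw [hu, setIntegral_union hd measurableSet_Ioi hi1 hi2] at hv
  have h2 : ∫ y in Ioc (0:ℝ) 1, ((Int.fract (y / n) : ℝ) : ℂ) * (y : ℂ) ^ (-s - 1) =
      (1 / n) * (1 / (1 - s)) := by
    rw [integral_Ioc_eq_integral_Ioo, ← int_pow_zero_one s h1, ← integral_const_mul]
    refine setIntegral_congr_fun measurableSet_Ioo fun y hy => ?_
    have hy0 : (y : ℂ) ≠ 0 := by exact_mod_cast hy.1.ne'
    have hfr : Int.fract (y / n) = y / n := by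
      rw [Int.fract_eq_self]
      exact ⟨div_nonneg hy.1.le hn0.le, (div_lt_one hn0).2 (lt_of_lt_of_le hy.2 hn1)⟩
    have hp : (y : ℂ) ^ (-s) = (y : ℂ) ^ (-s - 1) * y := by
      have := Complex.cpow_add (-s - 1) 1 hy0
      rw [sub_add_cancel, Complex.cpow_one] at this
      exact this
    simp only [hfr, hp]
    push_cast
    ring
  rw [h2] at hv
  linear_combination hv

theorem one_part (s : ℂ) (h0 : 0 < s.re) :
    IntegrableOn (fun y : ℝ => (y : ℂ) ^ (-s - 1)) (Ioi 1) ∧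
    ∫ y in Ioi (1:ℝ), (y : ℂ) ^ (-s - 1) = 1 / s := by
  have hlt : (-s - 1).re < -1 := by
    simp only [Complex.sub_re, Complex.neg_re, Complex.one_re]
    linarith
  refine ⟨integrableOn_Ioi_cpow_of_lt hlt zero_lt_one, ?_⟩
  rw [integral_Ioi_cpow_of_lt hlt zero_lt_one]
  simp

/-- B2c -/
theorem rMellin (h : FractMellin) : RMellin := by
  intro N hN s h0 h1
  have hN0 : (N : ℂ) ≠ 0 := by
    have : N ≠ 0 := by omega
    exact_mod_cast this
  have hs : s ≠ 0 := by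
    intro hs
    rw [hs] at h0
    simp at h0
  have hs1 : (1 : ℂ) - s ≠ 0 := by
    intro h
    have := congrArg Complex.re h
    simp at this
    linarith
  obtain ⟨ho1, ho2⟩ := one_part s h0
  have hf := fun n hn => fract_part h n hn s h0 h1
  have hfun : ∀ y : ℝ, (RR N y : ℂ) * (y : ℂ) ^ (-s - 1) =
      ((y : ℂ) ^ (-s - 1) + ∑ n ∈ Finset.Icc 1 N,
        (mu n : ℂ) * (((Int.fract (y / n) : ℝ) : ℂ) * (y : ℂ) ^ (-s - 1))) -
      (N * mm N : ℂ) * (((Int.fract (y / N) : ℝ) : ℂ) * (y : ℂ) ^ (-s - 1)) := by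
    intro y
    unfold RR
    push_cast
    rw [sub_mul, add_mul, one_mul, Finset.sum_mul]
    simp only [mul_assoc]
  have hint : ∀ n ∈ Finset.Icc 1 N, IntegrableOn (fun y : ℝ =>
      (mu n : ℂ) * (((Int.fract (y / n) : ℝ) : ℂ) * (y : ℂ) ^ (-s - 1))) (Ioi 1) := by
    intro n hn
    exact (hf n (Finset.mem_Icc.1 hn).1).1.const_mul _
  rw [integral_congr_ae (Eventually.of_forall hfun)]
  have hA : Integrable (fun y : ℝ => ∑ n ∈ Finset.Icc 1 N,
      (mu n : ℂ) * (((Int.fract (y / n) : ℝ) : ℂ) * (y : ℂ) ^ (-s - 1)))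
      (volume.restrict (Ioi 1)) := integrable_finsetSum _ hint
  have hB : Integrable (fun y : ℝ => (y : ℂ) ^ (-s - 1) + ∑ n ∈ Finset.Icc 1 N,
      (mu n : ℂ) * (((Int.fract (y / n) : ℝ) : ℂ) * (y : ℂ) ^ (-s - 1)))
      (volume.restrict (Ioi 1)) := Integrable.add ho1 hA
  have hC : Integrable (fun y : ℝ =>
      (N * mm N : ℂ) * (((Int.fract (y / N) : ℝ) : ℂ) * (y : ℂ) ^ (-s - 1)))
      (volume.restrict (Ioi 1)) := (hf N hN).1.const_mul _
  rw [integral_sub hB hC, integral_add ho1 hA, integral_finsetSum _ hint, ho2,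
    integral_const_mul, (hf N hN).2]
  have hsum : ∑ n ∈ Finset.Icc 1 N, ∫ y in Ioi (1:ℝ),
      (mu n : ℂ) * (((Int.fract (y / n) : ℝ) : ℂ) * (y : ℂ) ^ (-s - 1)) =
      -(riemannZeta s / s) * MN N s - (1 / (1 - s)) * (mm N : ℂ) := by
    unfold MN mm
    push_cast
    rw [Finset.mul_sum, Finset.mul_sum, ← Finset.sum_sub_distrib]
    refine Finset.sum_congr rfl fun n hn => ?_
    rw [integral_const_mul, (hf n (Finset.mem_Icc.1 hn).1).2]
    ring
  rw [hsum]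
  have hpow : (N : ℂ) ^ (1 - s) = N * (N : ℂ) ^ (-s) := by
    have := Complex.cpow_add 1 (-s) hN0
    rw [Complex.cpow_one] at this
    rw [← this]
    congr 1
  rw [hpow]
  field_simp
  ring

end Pool.Agent.H814R2.BeuR
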