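import Pool.Agent.H383.PZ.Defs

/-!
# Task T5: the main term of the Piltz divisor problem
-/

open MeasureTheory Set

namespace Pool.Agent.H814R2.PZT5

open Pool.Agent.H383.PZ

/-- the half-plane -/
def HP : Set ℂ := {s | 0 < s.re}

/-- the punctured half-plane -/
def U : Set ℂ := {s | 0 < s.re ∧ s ≠ 1}

theorem isOpen_HP : IsOpen HP := isOpen_lt continuous_const Complex.continuous_re

theorem isOpen_U : IsOpen U := by
  have : U = HP ∩ {s | s ≠ 1} := rfl
  rw [this]
  exact isOpen_HP.inter isOpen_ne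

theorem edge_h {c : ℝ} (hc : c ≠ 0) {x : ℝ} (hx : x ∈ Set.uIcc (1/8:ℝ) 2) :
    ((x:ℂ) + (c:ℂ) * Complex.I) ∈ U := by
  rw [Set.uIcc_of_le (by norm_num)] at hx
  constructor
  · simp
    linarith [hx.1]
  · intro h
    have := congrArg Complex.im h
    simp at this
    exact hc this

theorem edge_v {b : ℝ} (hb0 : 0 < b) (hb : b ≠ 1) (y : ℝ) : ((b:ℂ) + (y:ℂ) * Complex.I) ∈ U := by
  constructor
  · simpa using hb0
  · intro h
    have := congrArg Complex.re h
    simp at this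
    exact hb this

theorem int_h {f : ℂ → ℂ} (hf : ContinuousOn f U) {c : ℝ} (hc : c ≠ 0) :
    IntervalIntegrable (fun x : ℝ => f ((x:ℂ) + (c:ℂ) * Complex.I)) volume (1/8) 2 := by
  apply ContinuousOn.intervalIntegrable
  refine hf.comp (Continuous.continuousOn (by fun_prop)) fun x hx => edge_h hc hx

theorem int_v {f : ℂ → ℂ} (hf : ContinuousOn f U) {b : ℝ} (hb0 : 0 < b) (hb : b ≠ 1) :
    IntervalIntegrable (fun y : ℝ => f ((b:ℂ) + (y:ℂ) * Complex.I)) volume (-1) 1 := by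
  apply ContinuousOn.intervalIntegrable
  refine hf.comp (Continuous.continuousOn (by fun_prop)) fun y _ => edge_v hb0 hb y

theorem Rect_add {f g : ℂ → ℂ} (hf : ContinuousOn f U) (hg : ContinuousOn g U) :
    Rect (fun s => f s + g s) (1/8) 2 = Rect f (1/8) 2 + Rect g (1/8) 2 := by
  unfold Rect
  rw [intervalIntegral.integral_add (int_h hf (by norm_num)) (int_h hg (by norm_num)),
    intervalIntegral.integral_add (int_h hf (by norm_num)) (int_h hg (by norm_num)),
    intervalIntegral.integral_add (int_v hf (by norm_num) (by norm_num))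
      (int_v hg (by norm_num) (by norm_num)),
    intervalIntegral.integral_add (int_v hf (by norm_num) (by norm_num))
      (int_v hg (by norm_num) (by norm_num))]
  ring

theorem Rect_mul (c : ℂ) (f : ℂ → ℂ) :
    Rect (fun s => c * f s) (1/8) 2 = c * Rect f (1/8) 2 := by
  unfold Rect
  simp only [intervalIntegral.integral_const_mul]
  ring

theorem Rect_congr {f g : ℂ → ℂ} (h : ∀ s ∈ U, f s = g s) :
    Rect f (1/8) 2 = Rect g (1/8) 2 := by
  unfold Rect
  rw [intervalIntegral.integral_congr (g := fun x : ℝ => g ((x:ℂ) + ((-1:ℝ):ℂ) * Complex.I))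
      (fun x hx => h _ (edge_h (by norm_num) hx)),
    intervalIntegral.integral_congr (f := fun x : ℝ => f ((x:ℂ) + ((1:ℝ):ℂ) * Complex.I))
      (g := fun x : ℝ => g ((x:ℂ) + ((1:ℝ):ℂ) * Complex.I))
      (fun x hx => h _ (edge_h (by norm_num) hx)),
    intervalIntegral.integral_congr (f := fun y : ℝ => f (((2:ℝ):ℂ) + (y:ℂ) * Complex.I))
      (g := fun y : ℝ => g (((2:ℝ):ℂ) + (y:ℂ) * Complex.I))
      (fun y _ => h _ (edge_v (by norm_num) (by norm_num) y)),
    intervalIntegral.integral_congr (f := fun y : ℝ => f (((1/8:ℝ):ℂ) + (y:ℂ) * Complex.I))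
      (g := fun y : ℝ => g (((1/8:ℝ):ℂ) + (y:ℂ) * Complex.I))
      (fun y _ => h _ (edge_v (by norm_num) (by norm_num) y))]

theorem Rect_hol {f : ℂ → ℂ} (hf : DifferentiableOn ℂ f HP) : Rect f (1/8) 2 = 0 := by
  have h := Complex.integral_boundary_rect_eq_zero_of_differentiableOn f
    (⟨1/8, -1⟩ : ℂ) (⟨2, 1⟩ : ℂ) (hf.mono ?_)
  · simp only [smul_eq_mul] at h
    unfold Rect
    exact h
  · intro s hs
    have h1 := hs.1
    simp only [mem_preimage] at h1
    rw [Set.uIcc_of_le (by norm_num)] at h1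
    show 0 < s.re
    linarith [h1.1]

/-- the derivative of a function -/
theorem Rect_deriv {G G' : ℂ → ℂ} (hG : ∀ s ∈ U, HasDerivAt G (G' s) s)
    (hG' : ContinuousOn G' U) : Rect G' (1/8) 2 = 0 := by
  have hh : ∀ c : ℝ, c ≠ 0 → ∫ x in (1/8:ℝ)..2, G' ((x:ℂ) + (c:ℂ) * Complex.I) =
      G (((2:ℝ):ℂ) + (c:ℂ) * Complex.I) - G (((1/8:ℝ):ℂ) + (c:ℂ) * Complex.I) := by
    intro c hc
    refine intervalIntegral.integral_eq_sub_of_hasDerivAt
      (f := fun x : ℝ => G ((x:ℂ) + (c:ℂ) * Complex.I)) (fun x hx => ?_) (int_h hG' hc)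
    have h1 := hG _ (edge_h hc hx)
    have h2 : HasDerivAt (fun x : ℝ => (x:ℂ) + (c:ℂ) * Complex.I) 1 x :=
      (Complex.ofRealCLM.hasDerivAt).add_const _
    have h3 := HasDerivAt.comp x h1 h2
    rw [mul_one] at h3
    exact h3
  have hv : ∀ b : ℝ, 0 < b → b ≠ 1 → Complex.I * ∫ y in (-1:ℝ)..1,
      G' ((b:ℂ) + (y:ℂ) * Complex.I) =
      G ((b:ℂ) + ((1:ℝ):ℂ) * Complex.I) - G ((b:ℂ) + ((-1:ℝ):ℂ) * Complex.I) := by
    intro b hb0 hb
    rw [← intervalIntegral.integral_const_mul]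
    refine intervalIntegral.integral_eq_sub_of_hasDerivAt
      (f := fun y : ℝ => G ((b:ℂ) + (y:ℂ) * Complex.I)) (fun y _ => ?_)
      ((int_v hG' hb0 hb).const_mul _)
    have h1 := hG _ (edge_v hb0 hb y)
    have h2 : HasDerivAt (fun y : ℝ => (b:ℂ) + (y:ℂ) * Complex.I) Complex.I y := by
      have h4 := ((Complex.ofRealCLM.hasDerivAt (x := y)).mul_const Complex.I).const_add (b:ℂ)
      simpa using h4
    have h3 := HasDerivAt.comp y h1 h2
    rw [mul_comm] at h3
    exact h3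
  unfold Rect
  rw [hh (-1) (by norm_num), hh 1 (by norm_num), hv 2 (by norm_num) (by norm_num),
    hv (1/8) (by norm_num) (by norm_num)]
  ring

theorem log_neg_im_neg {z : ℂ} (hz : z.im < 0) :
    Complex.log (-z) = Complex.log z + Real.pi * Complex.I := by
  unfold Complex.log
  rw [norm_neg, Complex.arg_neg_eq_arg_add_pi_of_im_neg hz]
  push_cast
  ring

theorem Rect_inv : Rect (fun s => 1 / (s - 1)) (1/8) 2 = 2 * Real.pi * Complex.I := by
  -- the principal logarithm on three edges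
  have hne : ∀ s ∈ U, s - 1 ≠ 0 := fun s hs => sub_ne_zero.2 hs.2
  have hcont : ContinuousOn (fun s : ℂ => 1 / (s - 1)) U :=
    ContinuousOn.div continuousOn_const (continuousOn_id.sub continuousOn_const) hne
  have hh : ∀ c : ℝ, c ≠ 0 → ∫ x in (1/8:ℝ)..2, 1 / ((x:ℂ) + (c:ℂ) * Complex.I - 1) =
      Complex.log (((2:ℝ):ℂ) + (c:ℂ) * Complex.I - 1) -
        Complex.log (((1/8:ℝ):ℂ) + (c:ℂ) * Complex.I - 1) := by
    intro c hc
    refine intervalIntegral.integral_eq_sub_of_hasDerivAt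
      (f := fun x : ℝ => Complex.log ((x:ℂ) + (c:ℂ) * Complex.I - 1)) (fun x hx => ?_)
      (int_h hcont hc)
    have h2 : HasDerivAt (fun x : ℝ => (x:ℂ) + (c:ℂ) * Complex.I - 1) 1 x :=
      ((Complex.ofRealCLM.hasDerivAt).add_const _).sub_const _
    have h3 := (Complex.hasDerivAt_log (z := (x:ℂ) + (c:ℂ) * Complex.I - 1)
      (Or.inr (by simpa using hc))).comp x h2
    rw [mul_one, ← one_div] at h3
    exact h3
  have hr : Complex.I * ∫ y in (-1:ℝ)..1, 1 / (((2:ℝ):ℂ) + (y:ℂ) * Complex.I - 1) =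
      Complex.log (((2:ℝ):ℂ) + ((1:ℝ):ℂ) * Complex.I - 1) -
        Complex.log (((2:ℝ):ℂ) + ((-1:ℝ):ℂ) * Complex.I - 1) := by
    rw [← intervalIntegral.integral_const_mul]
    refine intervalIntegral.integral_eq_sub_of_hasDerivAt
      (f := fun y : ℝ => Complex.log (((2:ℝ):ℂ) + (y:ℂ) * Complex.I - 1)) (fun y _ => ?_)
      ((int_v hcont (by norm_num) (by norm_num)).const_mul _)
    have h2 : HasDerivAt (fun y : ℝ => ((2:ℝ):ℂ) + (y:ℂ) * Complex.I - 1) Complex.I y := by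
      have h4 := (((Complex.ofRealCLM.hasDerivAt (x := y)).mul_const Complex.I).const_add
        ((2:ℝ):ℂ)).sub_const 1
      simpa using h4
    have h3 := (Complex.hasDerivAt_log (z := ((2:ℝ):ℂ) + (y:ℂ) * Complex.I - 1)
      (Or.inl (by simp))).comp y h2
    rw [mul_comm, ← one_div] at h3
    exact h3
  have hl : Complex.I * ∫ y in (-1:ℝ)..1, 1 / (((1/8:ℝ):ℂ) + (y:ℂ) * Complex.I - 1) =
      Complex.log (-(((1/8:ℝ):ℂ) + ((1:ℝ):ℂ) * Complex.I - 1)) -
        Complex.log (-(((1/8:ℝ):ℂ) + ((-1:ℝ):ℂ) * Complex.I - 1)) := by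
    rw [← intervalIntegral.integral_const_mul]
    refine intervalIntegral.integral_eq_sub_of_hasDerivAt
      (f := fun y : ℝ => Complex.log (-(((1/8:ℝ):ℂ) + (y:ℂ) * Complex.I - 1))) (fun y _ => ?_)
      ((int_v hcont (by norm_num) (by norm_num)).const_mul _)
    have h2 : HasDerivAt (fun y : ℝ => -(((1/8:ℝ):ℂ) + (y:ℂ) * Complex.I - 1)) (-Complex.I) y := by
      have h4 : HasDerivAt (fun y : ℝ => ((1/8:ℝ):ℂ) + (y:ℂ) * Complex.I - 1) Complex.I y := by
        have h6 := (((Complex.ofRealCLM.hasDerivAt (x := y)).mul_const Complex.I).const_add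
          ((1/8:ℝ):ℂ)).sub_const 1
        simpa using h6
      exact h4.neg
    have h3 := (Complex.hasDerivAt_log (z := -(((1/8:ℝ):ℂ) + (y:ℂ) * Complex.I - 1))
      (Or.inl (by simp; norm_num))).comp y h2
    have h5 : (-(((1/8:ℝ):ℂ) + (y:ℂ) * Complex.I - 1))⁻¹ * (-Complex.I) =
        Complex.I * (1 / (((1/8:ℝ):ℂ) + (y:ℂ) * Complex.I - 1)) := by
      rw [inv_neg, neg_mul_neg, mul_comm, one_div (_ - _)]
    rw [h5] at h3
    exact h3
  unfold Rect
  rw [hh (-1) (by norm_num), hh 1 (by norm_num), hr, hl]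
  have e1 : Complex.log (-(((1/8:ℝ):ℂ) + ((-1:ℝ):ℂ) * Complex.I - 1)) =
      Complex.log (((1/8:ℝ):ℂ) + ((-1:ℝ):ℂ) * Complex.I - 1) + Real.pi * Complex.I :=
    log_neg_im_neg (by simp)
  have e2 : Complex.log (((1/8:ℝ):ℂ) + ((1:ℝ):ℂ) * Complex.I - 1) =
      Complex.log (-(((1/8:ℝ):ℂ) + ((1:ℝ):ℂ) * Complex.I - 1)) + Real.pi * Complex.I := by
    have := log_neg_im_neg (z := -(((1/8:ℝ):ℂ) + ((1:ℝ):ℂ) * Complex.I - 1)) (by simp)
    rw [neg_neg] at this
    exact this
  rw [e1, e2]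
  ring

theorem x_ne {x : ℝ} (hx : 0 < x) : (x:ℂ) ≠ 0 := by exact_mod_cast hx.ne'

theorem hasDerivAt_xs {x : ℝ} (hx : 0 < x) (s : ℂ) :
    HasDerivAt (fun s : ℂ => (x:ℂ) ^ s) ((x:ℂ) ^ s * Real.log x) s := by
  have h := (hasDerivAt_id s).const_cpow (c := (x:ℂ)) (Or.inl (x_ne hx))
  rw [mul_one, ← Complex.ofReal_log hx.le] at h
  exact h

theorem diff_xs {x : ℝ} (hx : 0 < x) : Differentiable ℂ (fun s : ℂ => (x:ℂ) ^ s) :=
  fun s => (hasDerivAt_xs hx s).differentiableAt

theorem HP_nhds : HP ∈ nhds (1:ℂ) := isOpen_HP.mem_nhds (by show (0:ℝ) < (1:ℂ).re; simp)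

theorem U_sub : U ⊆ HP := fun _ h => h.1

theorem cont_inv (m : ℕ) : ContinuousOn (fun s : ℂ => ((s - 1) ^ m)⁻¹) U :=
  ContinuousOn.inv₀ ((continuousOn_id.sub continuousOn_const).pow m)
    fun _ hs => pow_ne_zero _ (sub_ne_zero.2 hs.2)

theorem Rect_pow {x : ℝ} (hx : 0 < x) (m : ℕ) :
    Rect (fun s => (x:ℂ) ^ s * ((s - 1) ^ (m + 1))⁻¹) (1/8) 2 =
      2 * Real.pi * Complex.I * (x * ((Real.log x : ℝ) : ℂ) ^ m / (m.factorial : ℂ)) := by
  induction m with
  | zero =>
    have hg : DifferentiableOn ℂ (dslope (fun s : ℂ => (x:ℂ) ^ s) 1) HP :=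
      (Complex.differentiableOn_dslope HP_nhds).2 (diff_xs hx).differentiableOn
    have hc : ContinuousOn (fun s : ℂ => (x:ℂ) * (1 / (s - 1))) U := by
      refine continuousOn_const.mul ((cont_inv 1).congr fun s _ => ?_)
      simp only [pow_one, one_div]
    rw [Rect_congr (g := fun s => dslope (fun s : ℂ => (x:ℂ) ^ s) 1 s + (x:ℂ) * (1 / (s - 1)))
      (fun s hs => ?_), Rect_add (hg.continuousOn.mono U_sub) hc, Rect_hol hg, Rect_mul, Rect_inv]
    · simp only [pow_zero, Nat.factorial_zero, Nat.cast_one, mul_one, div_one, zero_add]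
      ring
    · have h1 : s - 1 ≠ 0 := sub_ne_zero.2 hs.2
      rw [dslope_of_ne _ hs.2, slope_def_field, Complex.cpow_one]
      field_simp
      ring
  | succ m ih =>
    have h0 : Rect (fun s => ((Real.log x : ℝ) : ℂ) * ((x:ℂ) ^ s * ((s - 1) ^ (m + 1))⁻¹) +
        (-((m:ℂ) + 1)) * ((x:ℂ) ^ s * ((s - 1) ^ (m + 1 + 1))⁻¹)) (1/8) 2 = 0 := by
      refine Rect_deriv (G := fun s => (x:ℂ) ^ s * ((s - 1) ^ (m + 1))⁻¹) (fun s hs => ?_) ?_
      · have h1 : s - 1 ≠ 0 := sub_ne_zero.2 hs.2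
        have h2 : HasDerivAt (fun s : ℂ => (s - 1) ^ (m + 1)) (((m:ℂ) + 1) * (s - 1) ^ m) s := by
          have h3 := ((hasDerivAt_id s).sub_const 1).pow (m + 1)
          simp only [id_eq, Nat.cast_add, Nat.cast_one, Nat.add_sub_cancel, mul_one] at h3
          exact h3
        have h3 := (hasDerivAt_xs hx s).mul (h2.inv (pow_ne_zero _ h1))
        have h4 : (x:ℂ) ^ s * ((Real.log x : ℝ) : ℂ) * ((s - 1) ^ (m + 1))⁻¹ +
            (x:ℂ) ^ s * (-(((m:ℂ) + 1) * (s - 1) ^ m) / ((s - 1) ^ (m + 1)) ^ 2) =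
            ((Real.log x : ℝ) : ℂ) * ((x:ℂ) ^ s * ((s - 1) ^ (m + 1))⁻¹) +
              (-((m:ℂ) + 1)) * ((x:ℂ) ^ s * ((s - 1) ^ (m + 1 + 1))⁻¹) := by
          field_simp
          ring
        rw [← h4]
        exact h3
      · exact ((continuousOn_const).mul ((diff_xs hx).continuous.continuousOn.mul
          (cont_inv (m+1)))).add ((continuousOn_const).mul
            ((diff_xs hx).continuous.continuousOn.mul (cont_inv (m+1+1))))
    have hcA : ContinuousOn (fun s => ((Real.log x : ℝ) : ℂ) *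
        ((x:ℂ) ^ s * ((s - 1) ^ (m + 1))⁻¹)) U :=
      continuousOn_const.mul ((diff_xs hx).continuous.continuousOn.mul (cont_inv (m+1)))
    have hcB : ContinuousOn (fun s => (-((m:ℂ) + 1)) *
        ((x:ℂ) ^ s * ((s - 1) ^ (m + 1 + 1))⁻¹)) U :=
      continuousOn_const.mul ((diff_xs hx).continuous.continuousOn.mul (cont_inv (m+1+1)))
    rw [Rect_add hcA hcB, Rect_mul, Rect_mul, ih] at h0
    have hm : ((m:ℂ) + 1) ≠ 0 := by exact_mod_cast Nat.succ_ne_zero m
    have hf : (((m + 1).factorial : ℕ) : ℂ) = ((m:ℂ) + 1) * (m.factorial : ℂ) := by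
      rw [Nat.factorial_succ]; push_cast; ring
    have hfm : (m.factorial : ℂ) ≠ 0 := by exact_mod_cast Nat.factorial_ne_zero m
    have h1 : Rect (fun s => (x:ℂ) ^ s * ((s - 1) ^ (m + 1 + 1))⁻¹) (1/8) 2 =
        ((Real.log x : ℝ) : ℂ) * (2 * Real.pi * Complex.I *
          (x * ((Real.log x : ℝ) : ℂ) ^ m / (m.factorial : ℂ))) / ((m:ℂ) + 1) := by
      rw [eq_div_iff hm]
      linear_combination -h0
    rw [h1, hf]
    field_simp
    ring

theorem taylor (m : ℕ) : ∀ f : ℂ → ℂ, DifferentiableOn ℂ f HP → ∃ P : Polynomial ℂ,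
    (∀ j, m ≤ j → P.coeff j = 0) ∧ (∀ j, j + 1 = m → P.coeff j = f 1 / (j.factorial : ℂ)) ∧
    ∀ x : ℝ, 0 < x → Rect (fun s => f s * ((x:ℂ) ^ s * ((s - 1) ^ m)⁻¹)) (1/8) 2 =
      2 * Real.pi * Complex.I * (x * P.eval ((Real.log x : ℝ) : ℂ)) := by
  induction m with
  | zero =>
    intro f hf
    refine ⟨0, fun j _ => by simp, fun j hj => by omega, fun x hx => ?_⟩
    have hd : DifferentiableOn ℂ (fun s => f s * (x:ℂ) ^ s) HP :=
      hf.mul (diff_xs hx).differentiableOn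
    rw [Rect_congr (g := fun s => f s * (x:ℂ) ^ s) (fun s _ => by simp), Rect_hol hd]
    simp
  | succ m ih =>
    intro f hf
    have hf1 : DifferentiableOn ℂ (dslope f 1) HP :=
      (Complex.differentiableOn_dslope HP_nhds).2 hf
    obtain ⟨P, hP1, hP2, hP3⟩ := ih _ hf1
    refine ⟨Polynomial.monomial m (f 1 / (m.factorial : ℂ)) + P, fun j hj => ?_, fun j hj => ?_,
      fun x hx => ?_⟩
    · rw [Polynomial.coeff_add, Polynomial.coeff_monomial, if_neg (by omega), hP1 j (by omega),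
        add_zero]
    · have : j = m := by omega
      subst this
      rw [Polynomial.coeff_add, Polynomial.coeff_monomial, if_pos rfl, hP1 j le_rfl, add_zero]
    · have hc1 : ContinuousOn (fun s => f 1 * ((x:ℂ) ^ s * ((s - 1) ^ (m + 1))⁻¹)) U :=
        continuousOn_const.mul ((diff_xs hx).continuous.continuousOn.mul (cont_inv (m+1)))
      have hc2 : ContinuousOn (fun s => dslope f 1 s * ((x:ℂ) ^ s * ((s - 1) ^ m)⁻¹)) U :=
        (hf1.continuousOn.mono U_sub).mul ((diff_xs hx).continuous.continuousOn.mul (cont_inv m))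
      rw [Rect_congr (g := fun s => f 1 * ((x:ℂ) ^ s * ((s - 1) ^ (m + 1))⁻¹) +
        dslope f 1 s * ((x:ℂ) ^ s * ((s - 1) ^ m)⁻¹)) (fun s hs => ?_), Rect_add hc1 hc2,
        Rect_mul, Rect_pow hx, hP3 x hx, Polynomial.eval_add, Polynomial.eval_monomial]
      · ring
      · have h1 : s - 1 ≠ 0 := sub_ne_zero.2 hs.2
        rw [dslope_of_ne _ hs.2, slope_def_field]
        field_simp
        ring

/-- the boundary integral of a function with real values on the real axis is imaginary -/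
theorem Rect_conj {f : ℂ → ℂ} (hf : ∀ s, f ((starRingEnd ℂ) s) = (starRingEnd ℂ) (f s)) :
    (starRingEnd ℂ) (Rect f (1/8) 2) = -Rect f (1/8) 2 := by
  have hh : ∀ c : ℝ, (starRingEnd ℂ) (∫ x in (1/8:ℝ)..2, f ((x:ℂ) + (c:ℂ) * Complex.I)) =
      ∫ x in (1/8:ℝ)..2, f ((x:ℂ) + ((-c:ℝ):ℂ) * Complex.I) := by
    intro c
    rw [← intervalIntegral.intervalIntegral_conj]
    refine intervalIntegral.integral_congr fun x _ => ?_
    rw [← hf]
    congr 1
    simp
  have hv : ∀ b : ℝ, (starRingEnd ℂ) (∫ y in (-1:ℝ)..1, f ((b:ℂ) + (y:ℂ) * Complex.I)) =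
      ∫ y in (-1:ℝ)..1, f ((b:ℂ) + (y:ℂ) * Complex.I) := by
    intro b
    rw [← intervalIntegral.intervalIntegral_conj]
    have h1 := intervalIntegral.integral_comp_neg (a := (-1:ℝ)) (b := 1)
      (fun y : ℝ => f ((b:ℂ) + (y:ℂ) * Complex.I))
    rw [neg_neg] at h1
    rw [← h1]
    refine intervalIntegral.integral_congr fun y _ => ?_
    rw [← hf]
    congr 1
    simp
  unfold Rect
  rw [map_sub, map_add, map_sub, map_mul, map_mul, hh, hh, hv, hv, Complex.conj_I]
  rw [neg_neg]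
  ring

/-- TASK T5 (main term) -/
theorem main_term (k : ℕ) (hk2 : 1 ≤ k) : ∃ P : Polynomial ℝ, P.natDegree < k ∧ P.coeff (k-1) = 1 / ((k-1).factorial : ℝ) ∧
    ∀ x : ℝ, 0 < x → Rect (fun s => riemannZeta s ^ k * (x : ℂ) ^ s / s) (1/8) 2 =
      2 * Real.pi * Complex.I * ((x * P.eval (Real.log x) : ℝ) : ℂ) := by
  have hf : DifferentiableOn ℂ (fun s => riemannZeta₁ s ^ k / s) HP := by
    refine DifferentiableOn.div ((differentiable_riemannZeta₁.pow k).differentiableOn)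
      differentiableOn_id fun s hs => ?_
    intro h
    have : (0:ℝ) < s.re := hs
    rw [h] at this
    simp at this
  obtain ⟨Q, hQ1, hQ2, hQ3⟩ := taylor k _ hf
  have hQc : Q.coeff (k-1) = 1 / ((k-1).factorial : ℂ) := by
    rw [hQ2 (k-1) (by omega), riemannZeta₁_one]
    simp
  have hQdeg : Q.natDegree < k := by
    by_contra hcon
    push Not at hcon
    have h1 := hQ1 Q.natDegree hcon
    have h2 : Q = 0 := by
      rw [← Polynomial.leadingCoeff_eq_zero]
      exact h1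
    rw [h2, Polynomial.natDegree_zero] at hcon
    omega
  set P : Polynomial ℝ := ∑ j ∈ Finset.range k, Polynomial.monomial j (Q.coeff j).re with hP
  have hPc : ∀ j, P.coeff j = if j < k then (Q.coeff j).re else 0 := by
    intro j
    rw [hP, Polynomial.finsetSum_coeff]
    simp only [Polynomial.coeff_monomial]
    rw [Finset.sum_ite_eq']
    simp only [Finset.mem_range]
  refine ⟨P, ?_, ?_, fun x hx => ?_⟩
  · by_contra hcon
    push Not at hcon
    have h1 : P.coeff P.natDegree = 0 := by rw [hPc, if_neg (by omega)]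
    have h2 : P = 0 := by
      rw [← Polynomial.leadingCoeff_eq_zero]
      exact h1
    rw [h2, Polynomial.natDegree_zero] at hcon
    omega
  · rw [hPc, if_pos (by omega), hQc]
    have : (1 : ℂ) / ((k-1).factorial : ℂ) = ((1 / ((k-1).factorial : ℝ) : ℝ) : ℂ) := by
      push_cast; rfl
    rw [this, Complex.ofReal_re]
  · have hR : Rect (fun s => riemannZeta s ^ k * (x : ℂ) ^ s / s) (1/8) 2 =
        2 * Real.pi * Complex.I * (x * Q.eval ((Real.log x : ℝ) : ℂ)) := by
      rw [← hQ3 x hx]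
      refine Rect_congr fun s hs => ?_
      have h1 : s - 1 ≠ 0 := sub_ne_zero.2 hs.2
      rw [riemannZeta_eq_inv_sub_mul hs.2, mul_pow, inv_pow]
      ring
    have hconj := Rect_conj (f := fun s => riemannZeta s ^ k * (x : ℂ) ^ s / s) (fun s => by
      rw [riemannZeta_conj, Complex.cpow_conj _ _ (by
        rw [Complex.arg_ofReal_of_nonneg hx.le]; exact Real.pi_pos.ne), Complex.conj_ofReal,
        map_div₀, map_mul, map_pow])
    rw [hR] at hconj ⊢
    have hreal : (starRingEnd ℂ) (Q.eval ((Real.log x : ℝ) : ℂ)) = Q.eval ((Real.log x : ℝ) : ℂ) := by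
      simp only [map_mul, Complex.conj_I, Complex.conj_ofReal, map_ofNat] at hconj
      have hne : (2 * (Real.pi : ℂ) * Complex.I * x) ≠ 0 := by
        have : (Real.pi : ℂ) ≠ 0 := by exact_mod_cast Real.pi_ne_zero
        have h2 := x_ne hx
        simp [this, h2, Complex.I_ne_zero]
      have h3 : (2 * (Real.pi : ℂ) * Complex.I * x) * (starRingEnd ℂ) (Q.eval ((Real.log x : ℝ) : ℂ)) =
          (2 * (Real.pi : ℂ) * Complex.I * x) * Q.eval ((Real.log x : ℝ) : ℂ) := by
        linear_combination -hconj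
      exact mul_left_cancel₀ hne h3
    have hre : Q.eval ((Real.log x : ℝ) : ℂ) = ((Q.eval ((Real.log x : ℝ) : ℂ)).re : ℂ) :=
      ((Complex.conj_eq_iff_re).1 hreal).symm
    have hval : (Q.eval ((Real.log x : ℝ) : ℂ)).re = P.eval (Real.log x) := by
      rw [Polynomial.eval_eq_sum_range' hQdeg, hP, Polynomial.eval_finsetSum, Complex.re_sum]
      refine Finset.sum_congr rfl fun j _ => ?_
      rw [Polynomial.eval_monomial, ← Complex.ofReal_pow, Complex.re_mul_ofReal]
    rw [hre, hval]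
    push_cast
    ring

end Pool.Agent.H814R2.PZT5
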