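import Mathlib
import Pool.Agent.H383.PZ.K1

/-!
# A crude bound for the error term of the Piltz divisor problem from the smoothed Voronoi formula
-/

set_option autoImplicit false

open MeasureTheory Filter Topology Set

namespace Pool.Agent.H814R2.PZA4

open Pool.Agent.H383.PZ
open Pool.Agent.H387R2

lemma dk_nonneg (k m : ℕ) : 0 ≤ dk k m := by
  unfold dk; exact Nat.cast_nonneg _

lemma dk_zero_right (k : ℕ) : dk k 0 = 0 := by
  unfold dk; simp

lemma dk_succ (k m : ℕ) : dk (k+1) m = ∑ d ∈ m.divisors, dk k d := by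
  unfold dk
  rw [pow_succ, ArithmeticFunction.mul_zeta_apply]
  push_cast
  rfl

lemma dk_le (k m : ℕ) : dk k m ≤ (m:ℝ) ^ k := by
  induction k generalizing m with
  | zero =>
    unfold dk
    rw [pow_zero, pow_zero, ArithmeticFunction.one_apply]
    split_ifs <;> simp
  | succ k ih =>
    rw [dk_succ]
    calc ∑ d ∈ m.divisors, dk k d ≤ ∑ d ∈ m.divisors, (m:ℝ) ^ k := by
          refine Finset.sum_le_sum fun d hd => (ih d).trans ?_
          exact pow_le_pow_left₀ (Nat.cast_nonneg _) (by exact_mod_cast Nat.divisor_le hd) _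
      _ = (m.divisors.card : ℝ) * (m:ℝ) ^ k := by rw [Finset.sum_const, nsmul_eq_mul]
      _ ≤ (m : ℝ) * (m:ℝ) ^ k := by
          refine mul_le_mul_of_nonneg_right ?_ (by positivity)
          exact_mod_cast Nat.card_divisors_le_self m
      _ = (m:ℝ) ^ (k+1) := by ring

lemma ex_norm (y : ℝ) : ‖Vor.ex y‖ = 1 := by
  unfold Vor.ex; exact Complex.norm_exp_ofReal_mul_I _

lemma cf_le {y : ℝ} (hy : 0 < y) : ‖Vor.cf y‖ ≤ 1 / (Real.pi * y) := by
  have hpi := Real.pi_pos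
  unfold Vor.cf
  rw [norm_div, norm_mul, Complex.norm_I, mul_one, Complex.norm_real, Real.norm_eq_abs,
    abs_of_pos (by positivity)]
  have h1 : ‖Vor.ex y - 1‖ ≤ 2 := by
    calc ‖Vor.ex y - 1‖ ≤ ‖Vor.ex y‖ + ‖(1:ℂ)‖ := norm_sub_le _ _
      _ = 2 := by rw [ex_norm, norm_one]; norm_num
  rw [div_le_div_iff₀ (by positivity) (by positivity)]
  nlinarith [mul_pos hpi hy]

lemma ok_norm (k : ℕ) : ‖ok k‖ = 1 := by
  unfold ok; exact Complex.norm_exp_ofReal_mul_I _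

lemma ck_le (k : ℕ) (δ : ℝ) (n : ℕ) (R y : ℝ) : |ck k δ n R y| ≤ ‖Vor.cf (k * y * δ)‖ ^ n := by
  unfold ck
  refine (Complex.abs_re_le_norm _).trans ?_
  rw [norm_mul, norm_mul, norm_pow, ok_norm, ex_norm, one_mul, one_mul]

lemma tk_le (k : ℕ) (hk2 : 2 ≤ k) (R : ℝ) (m : ℕ) :
    ‖tk k (1/2) (k * (k+3)) R m‖ ≤ 1 / (m:ℝ) ^ 2 := by
  rcases Nat.eq_zero_or_pos m with rfl | hm
  · unfold tk; rw [dk_zero_right]; simp
  have hm1 : (1:ℝ) ≤ m := by exact_mod_cast hm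
  have hm0 : (0:ℝ) < m := by linarith
  have hk : (2:ℝ) ≤ k := by exact_mod_cast hk2
  have hpi : 3 < Real.pi := Real.pi_gt_three
  have h1 : |ck k (1/2) (k * (k+3)) R ((m:ℝ) ^ (1 / (k:ℝ)))| ≤ 1 / (m:ℝ) ^ (k+3) := by
    refine (ck_le _ _ _ _ _).trans ?_
    have hy : 0 < (m:ℝ) ^ (1 / (k:ℝ)) := Real.rpow_pos_of_pos hm0 _
    have h2 : ‖Vor.cf (k * (m:ℝ) ^ (1 / (k:ℝ)) * (1/2))‖ ≤ ((m:ℝ) ^ (1 / (k:ℝ)))⁻¹ := by
      refine (cf_le (by positivity)).trans ?_
      rw [one_div]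
      refine inv_anti₀ hy ?_
      have : (1:ℝ) ≤ Real.pi * k / 2 := by nlinarith
      calc (m:ℝ) ^ (1 / (k:ℝ)) = 1 * (m:ℝ) ^ (1 / (k:ℝ)) := by ring
        _ ≤ (Real.pi * k / 2) * (m:ℝ) ^ (1 / (k:ℝ)) := mul_le_mul_of_nonneg_right this hy.le
        _ = _ := by ring
    calc ‖Vor.cf (k * (m:ℝ) ^ (1 / (k:ℝ)) * (1/2))‖ ^ (k * (k+3))
        ≤ (((m:ℝ) ^ (1 / (k:ℝ)))⁻¹) ^ (k * (k+3)) := pow_le_pow_left₀ (norm_nonneg _) h2 _
      _ = 1 / (m:ℝ) ^ (k+3) := by
        rw [pow_mul, inv_pow, ← Real.rpow_natCast ((m:ℝ) ^ (1 / (k:ℝ))) k, ← Real.rpow_mul hm0.le,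
          one_div_mul_cancel (by positivity), Real.rpow_one, inv_pow, one_div]
  unfold tk
  rw [norm_mul, norm_mul, norm_mul, Real.norm_eq_abs, Real.norm_eq_abs, Real.norm_eq_abs,
    Real.norm_eq_abs, abs_of_nonneg (dk_nonneg _ _)]
  have h3 : |(m:ℝ) ^ (-(((k:ℝ) + 1) / (2 * k)) : ℝ)| ≤ 1 := by
    rw [abs_of_pos (Real.rpow_pos_of_pos hm0 _)]
    exact Real.rpow_le_one_of_one_le_of_nonpos hm1 (by
      rw [neg_nonpos]; positivity)
  have h4 : |1 / (Real.pi * √(k:ℝ))| ≤ 1 := by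
    have h5 : 1 ≤ √(k:ℝ) := by
      rw [show (1:ℝ) = √1 by simp]
      exact Real.sqrt_le_sqrt (by linarith)
    rw [abs_of_pos (by positivity), div_le_one (by positivity)]
    nlinarith
  calc dk k m * |(m:ℝ) ^ (-(((k:ℝ) + 1) / (2 * k)) : ℝ)| * |1 / (Real.pi * √(k:ℝ))| *
        |ck k (1/2) (k * (k+3)) R ((m:ℝ) ^ (1 / (k:ℝ)))|
      ≤ (m:ℝ)^k * 1 * 1 * (1 / (m:ℝ) ^ (k+3)) := by
        gcongr
        exact dk_le k m
    _ = 1 / (m:ℝ) ^ 3 := by
        rw [pow_add]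
        field_simp
    _ ≤ 1 / (m:ℝ) ^ 2 := by
        refine one_div_le_one_div_of_le (by positivity) ?_
        exact pow_le_pow_right₀ hm1 (by norm_num)

lemma series_le (k : ℕ) (hk2 : 2 ≤ k) (R : ℝ) :
    |∑' m : ℕ, tk k (1/2) (k * (k+3)) R m| ≤ ∑' m : ℕ, 1 / (m:ℝ) ^ 2 := by
  have h := tsum_of_norm_bounded (Real.summable_one_div_nat_pow.2 (by norm_num : 1 < 2)).hasSum
    (tk_le k hk2 R)
  simpa using h

lemma Dk_mono (k : ℕ) {x y : ℝ} (h : x ≤ y) : Dk k x ≤ Dk k y := by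
  unfold Dk
  exact Finset.sum_le_sum_of_subset_of_nonneg (Finset.Icc_subset_Icc le_rfl (Nat.floor_mono h))
    (fun _ _ _ => dk_nonneg _ _)

lemma Dk_nonneg (k : ℕ) (x : ℝ) : 0 ≤ Dk k x := by
  unfold Dk
  exact Finset.sum_nonneg fun _ _ => dk_nonneg _ _

lemma Dk_meas (k : ℕ) : Measurable (Dk k) := by
  have : Dk k = (fun N : ℕ => ∑ n ∈ Finset.Icc 1 N, dk k n) ∘ (fun x : ℝ => ⌊x⌋₊) := rfl
  rw [this]
  exact (measurable_from_nat).comp Nat.measurable_floor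

lemma poly_le (Q : Polynomial ℝ) (d : ℕ) (hQ : Q.natDegree ≤ d) :
    ∃ C : ℝ, 0 < C ∧ ∀ t : ℝ, 0 ≤ t → |Q.eval t| ≤ C * (1 + t) ^ d := by
  refine ⟨∑ i ∈ Finset.range (d+1), |Q.coeff i| + 1, ?_, fun t ht => ?_⟩
  · have : 0 ≤ ∑ i ∈ Finset.range (d+1), |Q.coeff i| := Finset.sum_nonneg fun _ _ => abs_nonneg _
    linarith
  rw [Polynomial.eval_eq_sum_range' (Nat.lt_succ_of_le hQ)]
  calc |∑ i ∈ Finset.range (d+1), Q.coeff i * t ^ i|
      ≤ ∑ i ∈ Finset.range (d+1), |Q.coeff i * t ^ i| := Finset.abs_sum_le_sum_abs _ _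
    _ ≤ ∑ i ∈ Finset.range (d+1), |Q.coeff i| * (1 + t) ^ d := by
        refine Finset.sum_le_sum fun i hi => ?_
        rw [abs_mul, abs_of_nonneg (pow_nonneg ht _)]
        refine mul_le_mul_of_nonneg_left ?_ (abs_nonneg _)
        calc t ^ i ≤ (1 + t) ^ i := pow_le_pow_left₀ ht (by linarith) _
          _ ≤ (1 + t) ^ d := pow_le_pow_right₀ (by linarith) (by
            have := Finset.mem_range.1 hi; omega)
    _ = (∑ i ∈ Finset.range (d+1), |Q.coeff i|) * (1 + t) ^ d := by rw [Finset.sum_mul]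
    _ ≤ _ := by
        refine mul_le_mul_of_nonneg_right (by linarith) (by positivity)

/-- the main term -/
noncomputable def M (k : ℕ) (P : Polynomial ℝ) (R : ℝ) : ℝ := R ^ k * P.eval (Real.log (R ^ k))

lemma M_deriv (k : ℕ) (hk2 : 2 ≤ k) (P : Polynomial ℝ) {R : ℝ} (hR : 0 < R) :
    HasDerivAt (M k P) (k * R ^ (k-1) * (P + Polynomial.derivative P).eval (Real.log (R ^ k))) R := by
  have h1 : HasDerivAt (fun R : ℝ => R ^ k) (k * R ^ (k-1)) R := hasDerivAt_pow k R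
  have h2 : HasDerivAt (fun R : ℝ => Real.log (R ^ k)) (k * R ^ (k-1) / R ^ k) R :=
    h1.log (by positivity)
  have h3 : HasDerivAt (fun R : ℝ => P.eval (Real.log (R ^ k)))
      ((Polynomial.derivative P).eval (Real.log (R ^ k)) * (k * R ^ (k-1) / R ^ k)) R :=
    (P.hasDerivAt _).comp R h2
  have h4 := h1.mul h3
  refine h4.congr_deriv ?_
  rw [Polynomial.eval_add]
  have : R ^ k ≠ 0 := by positivity
  field_simp

/-- the size of the error -/
noncomputable def E (k d : ℕ) (R : ℝ) : ℝ := R ^ (k-1) * (1 + Real.log R) ^ d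

lemma one_add_log_add {R L : ℝ} (hR : 1 ≤ R) (hL : 0 ≤ L) :
    1 + Real.log (R + L) ≤ (1 + L) * (1 + Real.log R) := by
  have h1 : R + L ≤ (1 + L) * R := by nlinarith
  have h2 : Real.log (R + L) ≤ Real.log ((1 + L) * R) := Real.log_le_log (by linarith) h1
  rw [Real.log_mul (by linarith) (by linarith)] at h2
  have h3 : Real.log (1 + L) ≤ L := by
    have := Real.log_le_sub_one_of_pos (show (0:ℝ) < 1 + L by linarith)
    linarith
  have h4 : 0 ≤ Real.log R := Real.log_nonneg hR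
  nlinarith

lemma E_add {k d : ℕ} {R L : ℝ} (hR : 1 ≤ R) (hL : 0 ≤ L) :
    E k d (R + L) ≤ (1 + L) ^ (k-1) * (1 + L) ^ d * E k d R := by
  unfold E
  have h1 : R + L ≤ (1 + L) * R := by nlinarith
  have h2 := one_add_log_add hR hL
  have h0 : 0 ≤ Real.log (R + L) := Real.log_nonneg (by linarith)
  calc (R + L) ^ (k-1) * (1 + Real.log (R + L)) ^ d
      ≤ ((1 + L) * R) ^ (k-1) * ((1 + L) * (1 + Real.log R)) ^ d := by
        gcongr
    _ = _ := by rw [mul_pow, mul_pow]; ring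

lemma E_mono {k d : ℕ} {R S : ℝ} (hR : 1 ≤ R) (hS : R ≤ S) : E k d R ≤ E k d S := by
  unfold E
  have h0 : 0 ≤ Real.log R := Real.log_nonneg hR
  have h2 : Real.log R ≤ Real.log S := Real.log_le_log (by linarith) hS
  have hS0 : 0 ≤ S := by linarith
  gcongr

lemma E_one {k d : ℕ} {R : ℝ} (hR : 1 ≤ R) : 1 ≤ E k d R := by
  unfold E
  have h0 : 0 ≤ Real.log R := Real.log_nonneg hR
  exact one_le_mul_of_one_le_of_one_le (one_le_pow₀ hR) (one_le_pow₀ (by linarith))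

lemma log_pow_le (k : ℕ) (hk2 : 2 ≤ k) {R : ℝ} (hR : 1 ≤ R) :
    1 + Real.log (R ^ k) ≤ k * (1 + Real.log R) := by
  rw [Real.log_pow]
  have : (2:ℝ) ≤ k := by exact_mod_cast hk2
  have h0 : 0 ≤ Real.log R := Real.log_nonneg hR
  nlinarith

lemma M_diff (k : ℕ) (hk2 : 2 ≤ k) (P : Polynomial ℝ) (d : ℕ) (hP : P.natDegree ≤ d) (L : ℝ)
    (hL : 0 ≤ L) :
    ∃ C : ℝ, 0 < C ∧ ∀ R x : ℝ, 1 ≤ R → 0 ≤ x → x ≤ L → |M k P (R + x) - M k P R| ≤ C * E k d R := by
  obtain ⟨C, hC, hCb⟩ := poly_le (P + Polynomial.derivative P) d (by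
    refine (Polynomial.natDegree_add_le _ _).trans (max_le hP ?_)
    exact (Polynomial.natDegree_derivative_le P).trans (by omega))
  have hk : (2:ℝ) ≤ k := by exact_mod_cast hk2
  refine ⟨k * C * k ^ d * ((1 + L) ^ (k-1) * (1 + L) ^ d) * (L + 1), by positivity,
    fun R x hR hx hxL => ?_⟩
  have hb : ∀ t ∈ Icc R (R + L), ‖k * t ^ (k-1) *
      (P + Polynomial.derivative P).eval (Real.log (t ^ k))‖ ≤
      k * C * k ^ d * ((1 + L) ^ (k-1) * (1 + L) ^ d) * E k d R := by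
    intro t ht
    have ht1 : 1 ≤ t := hR.trans ht.1
    have h1 : 0 ≤ Real.log (t ^ k) := Real.log_nonneg (one_le_pow₀ ht1)
    have h2 := hCb _ h1
    have h3 := log_pow_le k hk2 ht1
    have h0 : 0 ≤ Real.log t := Real.log_nonneg ht1
    rw [norm_mul, Real.norm_eq_abs, Real.norm_eq_abs, abs_of_nonneg (by positivity)]
    calc k * t ^ (k-1) * |(P + Polynomial.derivative P).eval (Real.log (t ^ k))|
        ≤ k * t ^ (k-1) * (C * (k * (1 + Real.log t)) ^ d) := by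
          gcongr
          refine h2.trans ?_
          gcongr
      _ = k * C * k ^ d * E k d t := by unfold E; rw [mul_pow]; ring
      _ ≤ k * C * k ^ d * E k d (R + L) := by
          have := E_mono (k := k) (d := d) ht1 ht.2
          gcongr
      _ ≤ k * C * k ^ d * ((1 + L) ^ (k-1) * (1 + L) ^ d * E k d R) := by
          have := E_add (k := k) (d := d) hR hL
          gcongr
      _ = _ := by ring
  have hE : 0 ≤ E k d R := by linarith [E_one (k := k) (d := d) hR]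
  have h5 := (convex_Icc R (R + L)).norm_image_sub_le_of_norm_hasDerivWithin_le
    (f := M k P) (f' := fun t => k * t ^ (k-1) *
      (P + Polynomial.derivative P).eval (Real.log (t ^ k)))
    (fun t ht => (M_deriv k hk2 P (by linarith [ht.1])).hasDerivWithinAt) hb
    (left_mem_Icc.2 (by linarith)) (⟨by linarith, by linarith⟩ : R + x ∈ Icc R (R + L))
  rw [Real.norm_eq_abs, Real.norm_eq_abs, show R + x - R = x by ring, abs_of_nonneg hx] at h5
  refine h5.trans ?_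
  have hK : 0 ≤ k * C * k ^ d * ((1 + L) ^ (k-1) * (1 + L) ^ d) * E k d R := by positivity
  calc k * C * k ^ d * ((1 + L) ^ (k-1) * (1 + L) ^ d) * E k d R * x
      ≤ k * C * k ^ d * ((1 + L) ^ (k-1) * (1 + L) ^ d) * E k d R * (L + 1) :=
        mul_le_mul_of_nonneg_left (by linarith) hK
    _ = _ := by ring

lemma M_le (k : ℕ) (hk2 : 2 ≤ k) (P : Polynomial ℝ) (d : ℕ) (hP : P.natDegree ≤ d) :
    ∃ C : ℝ, 0 < C ∧ ∀ R S : ℝ, 1 ≤ R → R ≤ S → |M k P R| ≤ C * S ^ k * (k * (1 + Real.log S)) ^ d := by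
  obtain ⟨C, hC, hCb⟩ := poly_le P d hP
  refine ⟨C, hC, fun R S hR hS => ?_⟩
  have h1 : 0 ≤ Real.log (R ^ k) := Real.log_nonneg (one_le_pow₀ hR)
  have h2 := hCb _ h1
  have h3 := log_pow_le k hk2 hR
  have h0 : 0 ≤ Real.log R := Real.log_nonneg hR
  have h4 : Real.log R ≤ Real.log S := Real.log_le_log (by linarith) hS
  have hS0 : 0 ≤ S := by linarith
  unfold M
  rw [abs_mul, abs_of_nonneg (by positivity)]
  calc R ^ k * |P.eval (Real.log (R ^ k))| ≤ R ^ k * (C * (k * (1 + Real.log R)) ^ d) := by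
        gcongr
        refine h2.trans ?_
        gcongr
    _ ≤ S ^ k * (C * (k * (1 + Real.log S)) ^ d) := by
        gcongr
    _ = _ := by ring

lemma Fk_eq (k : ℕ) (P : Polynomial ℝ) (R : ℝ) : Fk k P R = (Dk k (R ^ k) - M k P R) * R ^ (-hk k) := rfl

lemma hk_nonneg (k : ℕ) (hk2 : 2 ≤ k) : 0 ≤ hk k := by
  unfold hk
  have : (2:ℝ) ≤ k := by exact_mod_cast hk2
  linarith

lemma Fk_int (k : ℕ) (hk2 : 2 ≤ k) (P : Polynomial ℝ) {R : ℝ} (hR : 1 ≤ R) (n : ℕ) :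
    Integrable (fun x => Fk k P (R + x)) (mu (1/2) n) := by
  obtain ⟨C, hC, hCb⟩ := M_le k hk2 P _ le_rfl
  refine int_of_bdd (by norm_num) n
    (B := (Dk k ((R + n * (1/2)) ^ k) + C * (R + n * (1/2)) ^ k *
      (k * (1 + Real.log (R + n * (1/2)))) ^ P.natDegree) * 1) ?_ ?_
  · refine Measurable.aestronglyMeasurable ?_
    unfold Fk
    refine Measurable.mul (Measurable.sub ((Dk_meas k).comp (by fun_prop)) (Measurable.mul (by fun_prop) ?_))
      (by fun_prop)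
    exact P.continuous.measurable.comp (by fun_prop)
  · intro x hx
    have h1 := hCb (R + x) (R + n * (1/2)) (by linarith [hx.1]) (by linarith [hx.2])
    have h2 : Dk k ((R + x) ^ k) ≤ Dk k ((R + n * (1/2)) ^ k) := by
      refine Dk_mono k (pow_le_pow_left₀ (by linarith [hx.1]) (by linarith [hx.2]) _)
    have h3 := Dk_nonneg k ((R + x) ^ k)
    have h4 : (R + x) ^ (-hk k) ≤ 1 :=
      Real.rpow_le_one_of_one_le_of_nonpos (by linarith [hx.1]) (by linarith [hk_nonneg k hk2])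
    have h5 : 0 < (R + x) ^ (-hk k) := Real.rpow_pos_of_pos (by linarith [hx.1]) _
    rw [Fk_eq, norm_mul, Real.norm_eq_abs, Real.norm_eq_abs, abs_of_pos h5]
    refine mul_le_mul ?_ h4 h5.le ?_
    · calc |Dk k ((R + x) ^ k) - M k P (R + x)| ≤ |Dk k ((R + x) ^ k)| + |M k P (R + x)| := abs_sub _ _
        _ ≤ _ := by rw [abs_of_nonneg h3]; linarith
    · have := abs_nonneg (M k P (R + x))
      linarith

/-- there are points with small value of the error term -/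
lemma exists_pts (k : ℕ) (hk2 : 2 ≤ k) (P : Polynomial ℝ)
    (hV : ∃ C : ℝ, 0 < C ∧ ∀ (n : ℕ) (R δ : ℝ), 2 * k + 2 ≤ n → 1 ≤ R → 0 < δ → δ ≤ 1/2 →
      |(∫ x, Fk k P (R + x) ∂(mu δ n)) - ∑' m : ℕ, tk k δ n R m| ≤ C * (R ^ (-(1/4) : ℝ) * δ ^ (-(k:ℝ)))) :
    ∃ L C : ℝ, 0 ≤ L ∧ 0 < C ∧ ∀ R : ℝ, 1 ≤ R →
      (∃ x ∈ Icc 0 L, Dk k ((R + x) ^ k) - M k P (R + x) ≤ C * R ^ (k-1)) ∧
      (∃ x ∈ Icc 0 L, -(C * R ^ (k-1)) ≤ Dk k ((R + x) ^ k) - M k P (R + x)) := by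
  obtain ⟨C, hC, hV⟩ := hV
  have hk' : (2:ℝ) ≤ k := by exact_mod_cast hk2
  set n := k * (k+3) with hn
  have hn2 : 2 * k + 2 ≤ n := by rw [hn]; nlinarith
  set L : ℝ := n * (1/2) with hLd
  have hL : 0 ≤ L := by positivity
  set S : ℝ := ∑' m : ℕ, 1 / (m:ℝ) ^ 2 with hS
  have hS0 : 0 ≤ S := tsum_nonneg fun m => by positivity
  set B : ℝ := C * (1/2:ℝ) ^ (-(k:ℝ)) + S + 1 with hB
  have hB0 : 0 < B := by positivity
  refine ⟨L, B * (1 + L) ^ (k-1), hL, by positivity, fun R hR => ?_⟩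
  have h1 := hV n R (1/2) hn2 hR (by norm_num) le_rfl
  have h2 := series_le k hk2 R
  have h3 : R ^ (-(1/4) : ℝ) ≤ 1 := Real.rpow_le_one_of_one_le_of_nonpos hR (by norm_num)
  have h4 : |∫ x, Fk k P (R + x) ∂(mu (1/2) n)| ≤ B := by
    have h5 : C * (R ^ (-(1/4) : ℝ) * (1/2:ℝ) ^ (-(k:ℝ))) ≤ C * (1/2:ℝ) ^ (-(k:ℝ)) := by
      refine mul_le_mul_of_nonneg_left ?_ hC.le
      have : (0:ℝ) < (1/2:ℝ) ^ (-(k:ℝ)) := by positivity
      nlinarith
    have h6 := abs_sub_abs_le_abs_sub (∫ x, Fk k P (R + x) ∂(mu (1/2) n)) (∑' m : ℕ, tk k (1/2) n R m)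
    linarith
  have := mu_prob (show (0:ℝ) < 1/2 by norm_num) n
  have hN : (mu (1/2) n) (Icc 0 L)ᶜ = 0 := by
    have := mu_supp (show (0:ℝ) < 1/2 by norm_num) n
    exact this
  have hup : ∀ x ∈ Icc 0 L, (R + x) ^ hk k ≤ (1 + L) ^ (k-1) * R ^ (k-1) := by
    intro x hx
    have h5 : R + x ≤ (1 + L) * R := by nlinarith [hx.2]
    have h6 : 1 ≤ (1 + L) * R := by nlinarith
    calc (R + x) ^ hk k ≤ ((1 + L) * R) ^ hk k :=
          Real.rpow_le_rpow (by linarith [hx.1]) h5 (hk_nonneg k hk2)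
      _ ≤ ((1 + L) * R) ^ (((k-1 : ℕ)) : ℝ) := by
          refine Real.rpow_le_rpow_of_exponent_le h6 ?_
          unfold hk
          rw [Nat.cast_sub (by omega)]
          push_cast
          linarith
      _ = _ := by rw [Real.rpow_natCast, mul_pow]
  have hF : ∀ x ∈ Icc 0 L, Dk k ((R + x) ^ k) - M k P (R + x) = Fk k P (R + x) * (R + x) ^ hk k := by
    intro x hx
    rw [Fk_eq, mul_assoc, ← Real.rpow_add (by linarith [hx.1]), neg_add_cancel, Real.rpow_zero, mul_one]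
  constructor
  · obtain ⟨x, hx, hx2⟩ := exists_notMem_null_le_integral (Fk_int k hk2 P hR n) hN
    have hx' : x ∈ Icc 0 L := by simpa using hx
    refine ⟨x, hx', ?_⟩
    rw [hF x hx']
    have h5 : Fk k P (R + x) ≤ B := hx2.trans ((le_abs_self _).trans h4)
    have h6 : 0 < (R + x) ^ hk k := Real.rpow_pos_of_pos (by linarith [hx'.1]) _
    calc Fk k P (R + x) * (R + x) ^ hk k ≤ B * (R + x) ^ hk k := mul_le_mul_of_nonneg_right h5 h6.le
      _ ≤ B * ((1 + L) ^ (k-1) * R ^ (k-1)) := mul_le_mul_of_nonneg_left (hup x hx') hB0.le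
      _ = _ := by ring
  · obtain ⟨x, hx, hx2⟩ := exists_notMem_null_integral_le (Fk_int k hk2 P hR n) hN
    have hx' : x ∈ Icc 0 L := by simpa using hx
    refine ⟨x, hx', ?_⟩
    rw [hF x hx']
    have h5 : -B ≤ Fk k P (R + x) := by
      have := (abs_le.1 h4).1
      linarith
    have h6 : 0 < (R + x) ^ hk k := Real.rpow_pos_of_pos (by linarith [hx'.1]) _
    calc -(B * (1 + L) ^ (k-1) * R ^ (k-1)) = -(B * ((1 + L) ^ (k-1) * R ^ (k-1))) := by ring
      _ ≤ -(B * (R + x) ^ hk k) := by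
          have := mul_le_mul_of_nonneg_left (hup x hx') hB0.le
          linarith
      _ = (-B) * (R + x) ^ hk k := by ring
      _ ≤ _ := mul_le_mul_of_nonneg_right h5 h6.le

/-- crude bound with the degree of the polynomial -/
theorem crudeR (k : ℕ) (hk2 : 2 ≤ k) (P : Polynomial ℝ) (d : ℕ) (hP : P.natDegree ≤ d)
    (hV : ∃ C : ℝ, 0 < C ∧ ∀ (n : ℕ) (R δ : ℝ), 2 * k + 2 ≤ n → 1 ≤ R → 0 < δ → δ ≤ 1/2 →
      |(∫ x, Fk k P (R + x) ∂(mu δ n)) - ∑' m : ℕ, tk k δ n R m| ≤ C * (R ^ (-(1/4) : ℝ) * δ ^ (-(k:ℝ)))) :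
    ∃ C₀ : ℝ, 0 < C₀ ∧ ∀ R : ℝ, 1 ≤ R → |Dk k (R ^ k) - M k P R| ≤ C₀ * E k d R := by
  obtain ⟨L, C, hL, hC, h⟩ := exists_pts k hk2 P hV
  obtain ⟨C1, hC1, hM⟩ := M_diff k hk2 P d hP L hL
  obtain ⟨C2, hC2, hM2⟩ := M_le k hk2 P d hP
  have hl : 0 ≤ Real.log (1 + L) := Real.log_nonneg (by linarith)
  refine ⟨C + 2 * C1 + (Dk k ((1 + L) ^ k) + C2 * (1 + L) ^ k * (k * (1 + Real.log (1 + L))) ^ d), ?_,
    fun R hR => ?_⟩
  · have := Dk_nonneg k ((1 + L) ^ k)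
    positivity
  have hD0 := Dk_nonneg k ((1 + L) ^ k)
  set Z := Dk k ((1 + L) ^ k) + C2 * (1 + L) ^ k * (k * (1 + Real.log (1 + L))) ^ d with hZ
  have hZ0 : 0 ≤ Z := by positivity
  have hE := E_one (k := k) (d := d) hR
  have hRE : ∀ R : ℝ, 1 ≤ R → R ^ (k-1) ≤ E k d R := by
    intro R hR
    unfold E
    have h0 : 0 ≤ Real.log R := Real.log_nonneg hR
    exact le_mul_of_one_le_right (by positivity) (one_le_pow₀ (by linarith))
  rw [abs_le]
  constructor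
  · rcases le_or_gt (1 + L) R with hLR | hLR
    · obtain ⟨x, hx, hx2⟩ := (h (R - L) (by linarith)).2
      have h1 : Dk k ((R - L + x) ^ k) ≤ Dk k (R ^ k) :=
        Dk_mono k (pow_le_pow_left₀ (by linarith [hx.1]) (by linarith [hx.2]) _)
      have h2 := hM (R - L) x (by linarith) hx.1 hx.2
      have h3 := hM (R - L) L (by linarith) hL le_rfl
      rw [show R - L + L = R by ring] at h3
      have h4 : E k d (R - L) ≤ E k d R := E_mono (by linarith) (by linarith)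
      have h5 := hRE (R - L) (by linarith)
      have h6 : 0 ≤ Z * E k d R := by positivity
      have h7 : C * (R - L) ^ (k-1) ≤ C * E k d R :=
        mul_le_mul_of_nonneg_left (h5.trans h4) hC.le
      have h8 : C1 * E k d (R - L) ≤ C1 * E k d R := mul_le_mul_of_nonneg_left h4 hC1.le
      have h9 := (abs_le.1 h2)
      have h10 := (abs_le.1 h3)
      nlinarith
    · have h1 := hM2 R (1 + L) hR hLR.le
      have h2 := Dk_nonneg k (R ^ k)
      have h3 := (abs_le.1 h1).2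
      have h4 : Z ≤ Z * E k d R := le_mul_of_one_le_right hZ0 hE
      have h5 : 0 ≤ (C + 2 * C1) * E k d R := by positivity
      nlinarith
  · obtain ⟨x, hx, hx2⟩ := (h R hR).1
    have h1 : Dk k (R ^ k) ≤ Dk k ((R + x) ^ k) :=
      Dk_mono k (pow_le_pow_left₀ (by linarith [hx.1]) (by linarith [hx.1]) _)
    have h2 := hM R x hR hx.1 hx.2
    have h5 := hRE R hR
    have h6 : 0 ≤ Z * E k d R := by positivity
    have h7 : C * R ^ (k-1) ≤ C * E k d R := mul_le_mul_of_nonneg_left h5 hC.le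
    have h9 := (abs_le.1 h2)
    have h10 : 0 ≤ C1 * E k d R := by positivity
    nlinarith

lemma S_le (k N : ℕ) : ((∑ n ∈ Finset.Ioc 0 N, (ArithmeticFunction.zeta ^ (k+1) : ArithmeticFunction ℕ) n : ℕ) : ℝ) ≤
    N * (1 + Real.log N) ^ k := by
  induction k generalizing N with
  | zero =>
    rw [zero_add, pow_one, pow_zero, mul_one, ArithmeticFunction.sum_Ioc_zeta]
  | succ k ih =>
    rcases Nat.eq_zero_or_pos N with rfl | hN
    · simp
    have hN1 : (1:ℝ) ≤ N := by exact_mod_cast hN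
    have hlN : 0 ≤ Real.log N := Real.log_nonneg hN1
    rw [pow_succ', ArithmeticFunction.sum_Ioc_mul_eq_sum_sum]
    push_cast
    calc ∑ n ∈ Finset.Ioc 0 N, ((ArithmeticFunction.zeta n : ℕ) : ℝ) *
          ∑ m ∈ Finset.Ioc 0 (N / n), (((ArithmeticFunction.zeta ^ (k+1) : ArithmeticFunction ℕ) m : ℕ) : ℝ)
        ≤ ∑ n ∈ Finset.Icc 1 N, (N * (1 + Real.log N) ^ k) * (n : ℝ)⁻¹ := by
          rw [show Finset.Ioc 0 N = Finset.Icc 1 N from rfl]
          refine Finset.sum_le_sum fun n hn => ?_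
          have hn1 := (Finset.mem_Icc.1 hn)
          have hn0 : (0:ℝ) < n := by exact_mod_cast hn1.1
          rw [ArithmeticFunction.zeta_apply_ne (by omega), Nat.cast_one, one_mul]
          have h1 := ih (N / n)
          push_cast at h1
          have h2 : ((N / n : ℕ) : ℝ) ≤ N / n := Nat.cast_div_le
          have h3 : 1 ≤ N / n := (Nat.one_le_div_iff (by omega)).2 hn1.2
          have h4 : (1:ℝ) ≤ ((N / n : ℕ) : ℝ) := by exact_mod_cast h3
          have h5 : Real.log ((N / n : ℕ) : ℝ) ≤ Real.log N :=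
            Real.log_le_log (by linarith) (by exact_mod_cast Nat.div_le_self N n)
          have h6 : 0 ≤ Real.log ((N / n : ℕ) : ℝ) := Real.log_nonneg h4
          calc _ ≤ ((N / n : ℕ) : ℝ) * (1 + Real.log ((N / n : ℕ) : ℝ)) ^ k := h1
            _ ≤ (N / n) * (1 + Real.log N) ^ k := by gcongr
            _ = _ := by rw [div_eq_mul_inv]; ring
      _ = (N * (1 + Real.log N) ^ k) * ∑ n ∈ Finset.Icc 1 N, (n : ℝ)⁻¹ := by rw [Finset.mul_sum]
      _ ≤ (N * (1 + Real.log N) ^ k) * (1 + Real.log N) := by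
          refine mul_le_mul_of_nonneg_left ?_ (by positivity)
          have := harmonic_le_one_add_log N
          rw [harmonic_eq_sum_Icc] at this
          push_cast at this
          exact this
      _ = _ := by ring

lemma Dk_le (k : ℕ) (hk2 : 2 ≤ k) {x : ℝ} (hx : 1 ≤ x) : Dk k x ≤ x * (1 + Real.log x) ^ (k-1) := by
  have h1 := S_le (k-1) ⌊x⌋₊
  rw [show k - 1 + 1 = k by omega] at h1
  push_cast at h1
  have h2 : (⌊x⌋₊ : ℝ) ≤ x := Nat.floor_le (by linarith)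
  have h3 : (1:ℝ) ≤ (⌊x⌋₊ : ℝ) := by exact_mod_cast (Nat.one_le_floor_iff x).2 hx
  have h4 : Real.log (⌊x⌋₊ : ℝ) ≤ Real.log x := Real.log_le_log (by linarith) h2
  have h5 : 0 ≤ Real.log (⌊x⌋₊ : ℝ) := Real.log_nonneg h3
  calc Dk k x ≤ (⌊x⌋₊ : ℝ) * (1 + Real.log (⌊x⌋₊ : ℝ)) ^ (k-1) := h1
    _ ≤ x * (1 + Real.log x) ^ (k-1) := by gcongr

lemma deg_lt (k : ℕ) (hk2 : 2 ≤ k) (P : Polynomial ℝ) (C₀ : ℝ) (hC₀ : 0 < C₀) (d : ℕ)
    (h : ∀ R : ℝ, 1 ≤ R → |Dk k (R ^ k) - M k P R| ≤ C₀ * E k d R) : P.natDegree ≤ k - 1 := by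
  have hk : (2:ℝ) ≤ k := by exact_mod_cast hk2
  have hb : ∀ t : ℝ, 0 ≤ t → |P.eval t| ≤ (1 + C₀ * (d.factorial * Real.exp 1)) * (1 + t) ^ (k-1) := by
    intro t ht
    set R := Real.exp (t / k) with hR
    have hR1 : 1 ≤ R := Real.one_le_exp (by positivity)
    have hRk : Real.log (R ^ k) = t := by
      rw [Real.log_pow, hR, Real.log_exp]; field_simp
    have hlR : Real.log R = t / k := by rw [hR, Real.log_exp]
    have h1 := h R hR1
    have h2 := Dk_le k hk2 (one_le_pow₀ hR1 : 1 ≤ R ^ k)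
    have h0 := Dk_nonneg k (R ^ k)
    rw [hRk] at h2
    have h3 : |M k P R| ≤ R ^ k * (1 + t) ^ (k-1) + C₀ * E k d R := by
      have h4 := abs_sub_abs_le_abs_sub (M k P R) (Dk k (R ^ k))
      rw [abs_sub_comm, abs_of_nonneg h0] at h4
      linarith
    have h5 : (1 + Real.log R) ^ d ≤ (d.factorial * Real.exp 1) * R := by
      have h6 := Real.pow_div_factorial_le_exp (1 + Real.log R) (by rw [hlR]; positivity) d
      rw [div_le_iff₀ (by positivity), Real.exp_add, Real.exp_log (by linarith)] at h6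
      calc _ ≤ _ := h6
        _ = _ := by ring
    have h6 : E k d R ≤ (d.factorial * Real.exp 1) * R ^ k := by
      unfold E
      calc R ^ (k-1) * (1 + Real.log R) ^ d ≤ R ^ (k-1) * ((d.factorial * Real.exp 1) * R) := by gcongr
        _ = (d.factorial * Real.exp 1) * (R ^ (k-1) * R) := by ring
        _ = _ := by rw [← pow_succ, show k - 1 + 1 = k by omega]
    have h7 : |M k P R| = R ^ k * |P.eval t| := by
      unfold M
      rw [abs_mul, hRk, abs_of_pos (by positivity)]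
    rw [h7] at h3
    have h8 : R ^ k * |P.eval t| ≤ R ^ k * ((1 + C₀ * (d.factorial * Real.exp 1)) * (1 + t) ^ (k-1)) := by
      have h9 : (1:ℝ) ≤ (1 + t) ^ (k-1) := one_le_pow₀ (by linarith)
      calc R ^ k * |P.eval t| ≤ R ^ k * (1 + t) ^ (k-1) + C₀ * ((d.factorial * Real.exp 1) * R ^ k) := by
            have := mul_le_mul_of_nonneg_left h6 hC₀.le
            linarith
        _ = R ^ k * (1 + t) ^ (k-1) + R ^ k * (C₀ * (d.factorial * Real.exp 1)) * 1 := by ring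
        _ ≤ R ^ k * (1 + t) ^ (k-1) + R ^ k * (C₀ * (d.factorial * Real.exp 1)) * (1 + t) ^ (k-1) := by
            gcongr
        _ = _ := by ring
    exact le_of_mul_le_mul_left h8 (by positivity)
  by_contra hcon
  push Not at hcon
  have hQ : ((Polynomial.X + 1 : Polynomial ℝ) ^ (k-1)) ≠ 0 := by
    refine pow_ne_zero _ ?_
    exact Polynomial.X_add_C_ne_zero 1
  have hQd : ((Polynomial.X + 1 : Polynomial ℝ) ^ (k-1)).degree < P.degree := by
    have h1 : ((Polynomial.X + 1 : Polynomial ℝ) ^ (k-1)).natDegree ≤ k - 1 := by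
      refine Polynomial.natDegree_pow_le.trans ?_
      have : (Polynomial.X + 1 : Polynomial ℝ).natDegree = 1 := Polynomial.natDegree_X_add_C 1
      rw [this, mul_one]
    exact Polynomial.degree_lt_degree (by omega)
  have h1 := Polynomial.abs_div_tendsto_atTop_atTop_of_degree_gt P ((Polynomial.X + 1 : Polynomial ℝ) ^ (k-1)) hQd hQ
  have h2 := (h1.eventually_gt_atTop (1 + C₀ * (d.factorial * Real.exp 1))).and (eventually_ge_atTop (0:ℝ))
  obtain ⟨t, ht1, ht2⟩ := h2.exists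
  have h3 := hb t ht2
  rw [Polynomial.eval_pow, Polynomial.eval_add, Polynomial.eval_X, Polynomial.eval_one, add_comm t 1,
    abs_div, abs_of_pos (show (0:ℝ) < (1 + t) ^ (k-1) by positivity), lt_div_iff₀ (by positivity)] at ht1
  linarith

theorem crude (k : ℕ) (hk2 : 2 ≤ k) (P : Polynomial ℝ)
    (hV : ∃ C : ℝ, 0 < C ∧ ∀ (n : ℕ) (R δ : ℝ), 2 * k + 2 ≤ n → 1 ≤ R → 0 < δ → δ ≤ 1/2 →
      |(∫ x, Fk k P (R + x) ∂(mu δ n)) - ∑' m : ℕ, tk k δ n R m| ≤ C * (R ^ (-(1/4) : ℝ) * δ ^ (-(k:ℝ)))) :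
    ∃ C₀ : ℝ, 0 < C₀ ∧ ∀ y : ℝ, 1 ≤ y →
      |Dk k y - y * P.eval (Real.log y)| ≤ C₀ * y ^ (1 - 1 / (k:ℝ)) * (1 + Real.log y) ^ (k-1) := by
  obtain ⟨C₁, hC₁, h₁⟩ := crudeR k hk2 P _ le_rfl hV
  obtain ⟨C₀, hC₀, h⟩ := crudeR k hk2 P (k-1) (deg_lt k hk2 P C₁ hC₁ _ h₁) hV
  have hk : (2:ℝ) ≤ k := by exact_mod_cast hk2
  refine ⟨C₀, hC₀, fun y hy => ?_⟩
  have hy0 : 0 < y := by linarith
  set R := y ^ (1 / (k:ℝ)) with hR
  have hR1 : 1 ≤ R := Real.one_le_rpow hy (by positivity)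
  have hRk : R ^ k = y := by
    rw [hR, ← Real.rpow_natCast, ← Real.rpow_mul hy0.le, one_div_mul_cancel (by positivity), Real.rpow_one]
  have h2 := h R hR1
  unfold M E at h2
  rw [hRk] at h2
  have h3 : R ^ (k-1) = y ^ (1 - 1 / (k:ℝ)) := by
    rw [hR, ← Real.rpow_natCast, ← Real.rpow_mul hy0.le]
    congr 1
    rw [Nat.cast_sub (by omega)]
    push_cast
    field_simp
  have h4 : Real.log R ≤ Real.log y := by
    refine Real.log_le_log (by linarith) ?_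
    calc R = y ^ (1 / (k:ℝ)) := hR
      _ ≤ y ^ (1:ℝ) := Real.rpow_le_rpow_of_exponent_le hy (by
        rw [div_le_one (by positivity)]; linarith)
      _ = y := Real.rpow_one y
  have h5 : 0 ≤ Real.log R := Real.log_nonneg hR1
  refine h2.trans ?_
  rw [h3, ← mul_assoc]
  gcongr

end Pool.Agent.H814R2.PZA4
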