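import Pool.Agent.H175G.Frame0

/-! `GammaStmt` (task T08 of h175g). -/

namespace Pool.Agent.H814R2.Gam

open Finset Classical
open Pool.Agent.H175G
open Pool.Agent.H175R2 (P4Free)

variable {V : Type} {G : SimpleGraph V} {v : V} {M N : Finset V}

structure Cfg (G : SimpleGraph V) (v : V) (M N : Finset V) : Prop where
  gem : NoGem G
  p23 : NoP23 G
  vM : ∀ m ∈ M, G.Adj v m
  vN : ∀ n ∈ N, ¬ G.Adj v n
  ind : Ind G N
  clus : Clus G M
  three : ∃ a ∈ M, ∃ a' ∈ M, ∃ b ∈ M, ∃ b' ∈ M, ∃ c ∈ M, ∃ c' ∈ M, G.Adj a a' ∧ G.Adj b b' ∧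
      G.Adj c c' ∧ ¬ G.Adj a b ∧ a ≠ b ∧ ¬ G.Adj a c ∧ a ≠ c ∧ ¬ G.Adj b c ∧ b ≠ c

lemma Cfg.ne (h : Cfg G v M N) {m n : V} (hm : m ∈ M) (hn : n ∈ N) : m ≠ n := by
  rintro rfl; exact h.vN _ hn (h.vM _ hm)

lemma Cfg.non (h : Cfg G v M N) {x y z : V} (hx : x ∈ M) (hy : y ∈ M) (hz : z ∈ M)
    (hxy : G.Adj x y) (hn : ¬ G.Adj x z) (hne : x ≠ z) : ¬ G.Adj y z ∧ y ≠ z := by
  constructor
  · intro hyz; exact hn (h.clus x hx y hy z hz hxy hyz hne)
  · rintro rfl; exact hn hxy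

lemma Cfg.two_other (h : Cfg G v M N) {x : V} (hx : x ∈ M) :
    ∃ k ∈ M, ∃ k' ∈ M, ∃ l ∈ M, ∃ l' ∈ M, G.Adj k k' ∧ G.Adj l l' ∧ (¬ G.Adj k l ∧ k ≠ l) ∧
      (¬ G.Adj k x ∧ k ≠ x) ∧ (¬ G.Adj l x ∧ l ≠ x) := by
  obtain ⟨a, ha, a', ha', b, hb, b', hb', c, hc, c', hc', haa, hbb, hcc, hab, hab', hac, hac', hbc, hbc'⟩ := h.three
  have key : ∀ y ∈ M, ∀ z ∈ M, ¬ G.Adj y z → y ≠ z → ¬ (¬ G.Adj y x ∧ y ≠ x) → (¬ G.Adj z x ∧ z ≠ x) := by
    intro y hy z hz h1 h2 h3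
    constructor
    · intro hzx
      by_cases hyx : y = x
      · exact h1 (hyx ▸ hzx.symm)
      · have : G.Adj y x := by
          by_contra hh; exact h3 ⟨hh, hyx⟩
        exact h1 (h.clus y hy x hx z hz this hzx.symm h2)
    · rintro rfl
      exact h3 ⟨h1, h2⟩
  by_cases h1 : ¬ G.Adj a x ∧ a ≠ x
  · by_cases h2 : ¬ G.Adj b x ∧ b ≠ x
    · exact ⟨a, ha, a', ha', b, hb, b', hb', haa, hbb, ⟨hab, hab'⟩, h1, h2⟩
    · exact ⟨a, ha, a', ha', c, hc, c', hc', haa, hcc, ⟨hac, hac'⟩, h1, key b hb c hc hbc hbc' h2⟩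
  · exact ⟨b, hb, b', hb', c, hc, c', hc', hbb, hcc, ⟨hbc, hbc'⟩, key a ha b hb hab hab' h1,
      key a ha c hc hac hac' h1⟩

lemma Cfg.notpart (h : Cfg G v M N) {n a a' c c' : V} (hn : n ∈ N) (ha : a ∈ M) (ha' : a' ∈ M)
    (hc : c ∈ M) (hc' : c' ∈ M) (haa : G.Adj a a') (h1 : ¬ G.Adj n a) (h2 : ¬ G.Adj n a')
    (hcc : G.Adj c c') (h3 : G.Adj n c) : G.Adj n c' := by
  by_contra h4
  have hg := h.gem
  have hp := h.p23
  by_cases hac : ¬ G.Adj a c ∧ a ≠ c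
  · have e1 := h.non ha ha' hc haa hac.1 hac.2
    have e2 := h.non hc hc' ha hcc (fun h => hac.1 h.symm) hac.2.symm
    have e3 := h.non hc hc' ha' hcc (fun h => e1.1 h.symm) e1.2.symm
    have e4 := h.ne hc' hn
    gp
  · have hac2 : a ≠ c := by rintro rfl; exact h1 h3
    have hac1 : G.Adj a c := by by_contra hh; exact hac ⟨hh, hac2⟩
    obtain ⟨k, hk, k', hk', l, hl, l', hl', hkk, hll, hkl, hka, hla⟩ := h.two_other ha
    have f1 := h.non hk hk' ha hkk hka.1 hka.2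
    have f2 := h.non hl hl' ha hll hla.1 hla.2
    have f3 := h.non hk hk' hl hkk hkl.1 hkl.2
    have f4 := h.non hl hl' hk hll (fun h => hkl.1 h.symm) hkl.2.symm
    have f5 := h.non hl hl' hk' hll (fun h => f3.1 h.symm) f3.2.symm
    have g1 := h.non ha ha' hk haa (fun h => hka.1 h.symm) hka.2.symm
    have g2 := h.non ha ha' hk' haa (fun h => f1.1 h.symm) f1.2.symm
    have g3 := h.non ha ha' hl haa (fun h => hla.1 h.symm) hla.2.symm
    have g4 := h.non ha ha' hl' haa (fun h => f2.1 h.symm) f2.2.symm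
    have g5 := h.non ha hc hk hac1 (fun h => hka.1 h.symm) hka.2.symm
    have g6 := h.non ha hc hk' hac1 (fun h => f1.1 h.symm) f1.2.symm
    have g7 := h.non ha hc hl hac1 (fun h => hla.1 h.symm) hla.2.symm
    have g8 := h.non ha hc hl' hac1 (fun h => f2.1 h.symm) f2.2.symm
    clear hac
    gp 4

/-- a vertex of type A is not adjacent to two components -/
lemma Cfg.notwo (h : Cfg G v M N) {n a a' c d : V} (hn : n ∈ N) (ha : a ∈ M) (ha' : a' ∈ M)
    (hc : c ∈ M) (hd : d ∈ M) (haa : G.Adj a a') (h1 : ¬ G.Adj n a) (h2 : ¬ G.Adj n a')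
    (h3 : G.Adj n c) (h4 : G.Adj n d) (hcd : c ≠ d) : G.Adj c d := by
  by_contra h5
  have hg := h.gem
  have hp := h.p23
  have hac : ¬ G.Adj a c := fun hac => h1 (h.notpart hn ha ha' hc ha haa h1 h2 hac.symm h3)
  have had : ¬ G.Adj a d := fun hac => h1 (h.notpart hn ha ha' hd ha haa h1 h2 hac.symm h4)
  have hac' : ¬ G.Adj a' c := fun hac => h2 (h.notpart hn ha ha' hc ha' haa h1 h2 hac.symm h3)
  have had' : ¬ G.Adj a' d := fun hac => h2 (h.notpart hn ha ha' hd ha' haa h1 h2 hac.symm h4)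
  gp

/-- type A -/
def TA (G : SimpleGraph V) (M : Finset V) (n : V) : Prop :=
  ∃ a ∈ M, ∃ a' ∈ M, G.Adj a a' ∧ ¬ G.Adj n a ∧ ¬ G.Adj n a'

/-- type F -/
noncomputable def NF (G : SimpleGraph V) (M N : Finset V) : Finset V := N.filter (fun n => ¬ TA G M n)

/-- missed vertices of type F -/
noncomputable def F (G : SimpleGraph V) (M N : Finset V) (m : V) : Finset V :=
  (NF G M N).filter (fun n => ¬ G.Adj m n)

lemma mem_NF {n : V} : n ∈ NF G M N ↔ n ∈ N ∧ ¬ TA G M n := by simp [NF]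

lemma mem_F {m n : V} : n ∈ F G M N m ↔ n ∈ NF G M N ∧ ¬ G.Adj m n := by simp [F]

lemma disj {m m' n : V} (hm : m ∈ M) (hm' : m' ∈ M) (hmm : G.Adj m m') (h1 : n ∈ F G M N m) :
    n ∉ F G M N m' := by
  intro h2
  rw [mem_F, mem_NF] at h1 h2
  exact h1.1.2 ⟨m, hm, m', hm', hmm, fun h => h1.2 h.symm, fun h => h2.2 h.symm⟩

lemma Cfg.rule (h : Cfg G v M N) {m m' : V} (h1 : ¬ G.Adj m m')
    (h3 : 2 ≤ (F G M N m \ F G M N m').card) : F G M N m' ⊆ F G M N m := by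
  intro n3 hn3
  by_contra hn3'
  obtain ⟨n1, hn1, n2, hn2, hne⟩ := Finset.one_lt_card.1 h3
  simp only [mem_sdiff, mem_F, mem_NF, not_and, not_not] at hn1 hn2 hn3 hn3'
  have a1 : G.Adj m' n1 := hn1.2 hn1.1.1
  have a2 : G.Adj m' n2 := hn2.2 hn2.1.1
  have a3 : G.Adj m n3 := hn3' hn3.1
  have b1 := hn1.1.2
  have b2 := hn2.1.2
  have b3 := hn3.2
  have c1 := h.ind n1 hn1.1.1.1 n2 hn2.1.1.1
  have c2 := h.ind n1 hn1.1.1.1 n3 hn3.1.1
  have c3 := h.ind n2 hn2.1.1.1 n3 hn3.1.1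
  exact h.p23 m n3 n1 m' n2 a3 a1.symm a2 hne c1 b1 h1 b2 (fun h => c2 h.symm) (fun h => b3 h.symm)
    (fun h => c3 h.symm)

lemma Cfg.rule' (h : Cfg G v M N) {m m' n : V} (h1 : ¬ G.Adj m m')
    (h3 : n ∈ F G M N m') (h4 : n ∉ F G M N m) :
    (F G M N m \ F G M N m').card ≤ 1 := by
  by_contra h5
  exact h4 (h.rule h1 (by omega) h3)

lemma Cfg.meet (h : Cfg G v M N) {m x y : V} (h1 : ¬ G.Adj m x)
    (h3 : 2 ≤ (F G M N m).card) (h4 : y ∈ F G M N x) :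
    ∃ n ∈ F G M N m, n ∈ F G M N x := by
  by_contra hcon
  push Not at hcon
  have e : F G M N m \ F G M N x = F G M N m := by
    rw [Finset.sdiff_eq_self_iff_disjoint, Finset.disjoint_left]; exact hcon
  exact hcon y (h.rule h1 (by rw [e]; exact h3) h4) h4

lemma Cfg.noE (h : Cfg G v M N) {m m' m'' n n' : V} (hm : m ∈ M) (hm' : m' ∈ M) (hm'' : m'' ∈ M)
    (h1 : G.Adj m m') (h2 : G.Adj m m'') (h3 : G.Adj m' m'') (hn : n ∈ F G M N m)
    (hn' : n' ∈ F G M N m') : False := by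
  have a1 := disj hm hm' h1 hn
  have a2 := disj hm hm'' h2 hn
  have a3 := disj hm' hm h1.symm hn'
  have a4 := disj hm' hm'' h3 hn'
  simp only [mem_F, mem_NF, not_and, not_not] at hn hn' a1 a2 a3 a4
  have b1 := a1 hn.1
  have b2 := a2 hn.1
  have b3 := a3 hn'.1
  have b4 := a4 hn'.1
  have b5 := hn.2
  have b6 := hn'.2
  have b7 := h.ind n hn.1.1 n' hn'.1.1
  have hg := h.gem
  exact hg n m' m n' m'' b2.symm.symm h3.symm h2.symm b4 b1.symm h1.symm b3 (fun h => b5 h.symm) b6 b7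

/-- fact (3) -/
lemma Cfg.no3 (h : Cfg G v M N) {m2 m3 m4 n0 n1 : V}
    (e23 : ¬ G.Adj m2 m3) (d23 : m2 ≠ m3) (e24 : ¬ G.Adj m2 m4)
    (e34 : ¬ G.Adj m3 m4) (a1 : n1 ∈ F G M N m2) (a2 : n1 ∈ F G M N m3)
    (a3 : n1 ∉ F G M N m4) (a4 : n0 ∈ F G M N m4) (a5 : n0 ∉ F G M N m2) (a6 : n0 ∉ F G M N m3) :
    False := by
  simp only [mem_F, mem_NF, not_and, not_not] at a1 a2 a3 a4 a5 a6
  have b3 := a3 a1.1
  have b5 := a5 a4.1
  have b6 := a6 a4.1
  have b7 := h.ind n0 a4.1.1 n1 a1.1.1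
  exact h.p23 n1 m4 m2 n0 m3 b3.symm b5 b6.symm d23 e23 (fun h => a1.2 h.symm) (fun h => b7 h.symm)
    (fun h => a2.2 h.symm) (fun h => e24 h.symm) a4.2 (fun h => e34 h.symm)

/-- full pair -/
def Pr (G : SimpleGraph V) (M N : Finset V) (p q : V) : Prop :=
  p ∈ M ∧ q ∈ M ∧ G.Adj p q ∧ (F G M N p).Nonempty ∧ (F G M N q).Nonempty

lemma Pr.symm {p q : V} (h : Pr G M N p q) : Pr G M N q p :=
  ⟨h.2.1, h.1, h.2.2.1.symm, h.2.2.2.2, h.2.2.2.1⟩

lemma Pr.uniq (h : Cfg G v M N) {p q x : V} (hp : Pr G M N p q) (hx : x ∈ M) (hpx : G.Adj p x) :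
    x = q := by
  by_contra hne
  obtain ⟨h1, h2, h3, ⟨n, hn⟩, ⟨n', hn'⟩⟩ := hp
  have : G.Adj q x := h.clus q h2 p h1 x hx h3.symm hpx (Ne.symm hne)
  exact h.noE h1 h2 hx h3 hpx this hn hn'

lemma Pr.sep (h : Cfg G v M N) {p q x : V} (hp : Pr G M N p q) (hx : x ∈ M) (h1 : x ≠ p)
    (h2 : x ≠ q) : (¬ G.Adj p x ∧ p ≠ x) ∧ (¬ G.Adj q x ∧ q ≠ x) :=
  ⟨⟨fun hh => h2 (hp.uniq h hx hh), h1.symm⟩, ⟨fun hh => h1 (hp.symm.uniq h hx hh), h2.symm⟩⟩

lemma Pr.disj {p q n : V} (hp : Pr G M N p q) (hn : n ∈ F G M N p) : n ∉ F G M N q :=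
  Gam.disj hp.1 hp.2.1 hp.2.2.1 hn

/-! ### components and blocks -/

/-- component -/
noncomputable def cp (G : SimpleGraph V) (M : Finset V) (x : V) : Finset V :=
  M.filter (fun y => y = x ∨ G.Adj y x)

lemma mem_cp {x y : V} : y ∈ cp G M x ↔ y ∈ M ∧ (y = x ∨ G.Adj y x) := by simp [cp]

lemma self_cp {x : V} (hx : x ∈ M) : x ∈ cp G M x := mem_cp.2 ⟨hx, Or.inl rfl⟩

lemma Cfg.cp_eq (h : Cfg G v M N) {x y : V} (hx : x ∈ M) (hy : y ∈ cp G M x) :
    cp G M y = cp G M x := by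
  rw [mem_cp] at hy
  obtain ⟨hy, rfl | hyx⟩ := hy
  · rfl
  · ext z
    rw [mem_cp, mem_cp]
    constructor
    · rintro ⟨hz, rfl | hzy⟩
      · exact ⟨hz, Or.inr hyx⟩
      · refine ⟨hz, ?_⟩
        by_cases hzx : z = x
        · exact Or.inl hzx
        · exact Or.inr (h.clus z hz y hy x hx hzy hyx hzx)
    · rintro ⟨hz, rfl | hzx⟩
      · exact ⟨hz, Or.inr hyx.symm⟩
      · refine ⟨hz, ?_⟩
        by_cases hzy : z = y
        · exact Or.inl hzy
        · exact Or.inr (h.clus z hz x hx y hy hzx hyx.symm hzy)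

lemma Cfg.cp_adj (h : Cfg G v M N) {x y : V} (hx : x ∈ M) (hy : y ∈ M) (hxy : G.Adj x y) :
    cp G M x = cp G M y := h.cp_eq hy (mem_cp.2 ⟨hx, Or.inr hxy⟩)

lemma Cfg.nbA (h : Cfg G v M N) {n m : V} (hn : n ∈ N) (hT : TA G M n) (hm : m ∈ M)
    (hnm : G.Adj n m) : nb G M n = cp G M m := by
  obtain ⟨a, ha, a', ha', haa, h1, h2⟩ := hT
  ext z
  rw [mem_nb, mem_cp]
  constructor
  · rintro ⟨hz, hnz⟩
    refine ⟨hz, ?_⟩
    by_cases hzm : z = m
    · exact Or.inl hzm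
    · exact Or.inr (h.notwo hn ha ha' hz hm haa h1 h2 hnz hnm hzm)
  · rintro ⟨hz, rfl | hzm⟩
    · exact ⟨hz, hnm⟩
    · exact ⟨hz, h.notpart hn ha ha' hm hz haa h1 h2 hzm.symm hnm⟩

/-- blocks -/
noncomputable def bl (G : SimpleGraph V) (M Sq : Finset V) (c : V → V) (y : V) : Finset V :=
  if y ∈ M then cp G M y else
  if TA G M y ∧ (nb G M y).Nonempty then nb G M y else
  if h : ∃ s ∈ Sq, c s = y then cp G M h.choose else {y}

lemma bl_M {Sq : Finset V} {c : V → V} {y : V} (hy : y ∈ M) : bl G M Sq c y = cp G M y := by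
  rw [bl, if_pos hy]

lemma Cfg.notM (h : Cfg G v M N) {n : V} (hn : n ∈ N) : n ∉ M := fun hm => h.ne hm hn rfl

lemma Cfg.bl_A (h : Cfg G v M N) {Sq : Finset V} {c : V → V} {n m : V} (hn : n ∈ N)
    (hT : TA G M n) (hm : m ∈ M) (hnm : G.Adj n m) : bl G M Sq c n = cp G M m := by
  rw [bl, if_neg (h.notM hn), if_pos ⟨hT, m, mem_nb.2 ⟨hm, hnm⟩⟩]
  exact h.nbA hn hT hm hnm

/-- the hypotheses of the final step -/
structure Fi (G : SimpleGraph V) (v : V) (M N M1 Pa Sq W0 : Finset V) (c : V → V) : Prop where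
  h : Cfg G v M N
  hM : M1 ⊆ M
  hPa : Pa ⊆ M1
  hSq : Sq ⊆ M1
  hd : ∀ x ∈ Pa, x ∉ Sq
  h0 : ∀ m ∈ M1, ∀ m' ∈ M1, G.Adj m m' → (F G M N m).Nonempty → (F G M N m').Nonempty →
    m ∈ Pa ∨ m ∈ Sq
  h1 : ∀ p ∈ Pa, ∃ q ∈ Sq, G.Adj p q ∧ ∀ n ∈ NF G M N, (¬ G.Adj p n ↔ n ∈ W0 ∧ n ≠ c q)
  h2 : ∀ s ∈ Sq, F G M N s = {c s}
  h3 : ∀ s ∈ Sq, ∀ t ∈ Sq, c s = c t → s = t
  h5 : ∀ m ∈ M1, m ∉ Pa → m ∉ Sq → (F G M N m).Nonempty → ∀ s ∈ Sq,
    (c s ∈ F G M N m ↔ 2 ≤ (F G M N m).card)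
  h6 : ∀ m ∈ M, (Sq.filter (fun s => s ∈ cp G M m)).card ≤ 2

variable {M1 Pa Sq W0 : Finset V} {c : V → V}

lemma Fi.cNF (H : Fi G v M N M1 Pa Sq W0 c) {s : V} (hs : s ∈ Sq) : c s ∈ NF G M N := by
  have : c s ∈ F G M N s := by rw [H.h2 s hs]; simp
  exact (mem_F.1 this).1

lemma Fi.bl_S (H : Fi G v M N M1 Pa Sq W0 c) {s : V} (hs : s ∈ Sq) :
    bl G M Sq c (c s) = cp G M s := by
  have h1 := H.cNF hs
  rw [mem_NF] at h1
  rw [bl, if_neg (H.h.notM h1.1), if_neg (fun h => h1.2 h.1)]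
  have hex : ∃ t ∈ Sq, c t = c s := ⟨s, hs, rfl⟩
  rw [dif_pos hex]
  have := hex.choose_spec
  rw [H.h3 _ this.1 s hs this.2]

/-- the cases for `n ∈ N` -/
lemma Fi.cases (H : Fi G v M N M1 Pa Sq W0 c) {n : V} (hn : n ∈ N) :
    (TA G M n ∧ ∃ m ∈ M, G.Adj n m ∧ bl G M Sq c n = cp G M m) ∨
    (¬ TA G M n ∧ ∃ s ∈ Sq, c s = n ∧ bl G M Sq c n = cp G M s) ∨
    (bl G M Sq c n = {n} ∧ (TA G M n → ∀ m ∈ M, ¬ G.Adj n m) ∧ ∀ s ∈ Sq, c s ≠ n) := by
  by_cases hs : ∃ s ∈ Sq, c s = n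
  · obtain ⟨s, hs, rfl⟩ := hs
    exact Or.inr (Or.inl ⟨(mem_NF.1 (H.cNF hs)).2, s, hs, rfl, H.bl_S hs⟩)
  · by_cases hT : TA G M n ∧ ∃ m ∈ M, G.Adj n m
    · obtain ⟨hT, m, hm, hnm⟩ := hT
      exact Or.inl ⟨hT, m, hm, hnm, H.h.bl_A hn hT hm hnm⟩
    · refine Or.inr (Or.inr ⟨?_, fun h m hm hnm => hT ⟨h, m, hm, hnm⟩, fun s hs' he => hs ⟨s, hs', he⟩⟩)
      rw [bl, if_neg (H.h.notM hn), if_neg, dif_neg hs]
      rintro ⟨h1, m, hm⟩
      rw [mem_nb] at hm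
      exact hT ⟨h1, m, hm.1, hm.2⟩

noncomputable def V0 (G : SimpleGraph V) (M N M1 Pa Sq : Finset V) (c : V → V) : Finset V :=
  (M1.filter (fun m => m ∉ Pa ∧ m ∉ Sq ∧ (F G M N m).Nonempty)) ∪
    ((NF G M N).filter (fun n => ∀ s ∈ Sq, c s ≠ n))

lemma mem_V0 {x : V} : x ∈ V0 G M N M1 Pa Sq c ↔
    (x ∈ M1 ∧ x ∉ Pa ∧ x ∉ Sq ∧ (F G M N x).Nonempty) ∨ (x ∈ NF G M N ∧ ∀ s ∈ Sq, c s ≠ x) := by
  simp [V0]

def PP (G : SimpleGraph V) (M N Pa Sq W0 : Finset V) (c : V → V) (m n : V) : Prop :=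
  m ∈ M ∧ n ∈ NF G M N ∧ ¬ (m ∈ Pa ∧ n ∈ W0) ∧
    ¬ (m ∉ Pa ∧ 2 ≤ (F G M N m).card ∧ ∃ s ∈ Sq, c s = n)

lemma Fi.key (H : Fi G v M N M1 Pa Sq W0 c) {m n : V} (hm : m ∈ M1) (hn : n ∈ N)
    (hb : bl G M Sq c m ≠ bl G M Sq c n)
    (hV : ¬ (m ∈ V0 G M N M1 Pa Sq c ∧ n ∈ V0 G M N M1 Pa Sq c)) :
    G.Adj m n ↔ PP G M N Pa Sq W0 c m n := by
  have hmM := H.hM hm
  rw [bl_M hmM] at hb
  by_cases hT : TA G M n
  · constructor
    · intro hmn
      exact absurd (H.h.bl_A hn hT hmM hmn.symm).symm hb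
    · rintro ⟨_, h2, _⟩
      exact absurd hT (mem_NF.1 h2).2
  · have hnF : n ∈ NF G M N := mem_NF.2 ⟨hn, hT⟩
    have hq : ∀ q ∈ Sq, (q = m ∨ G.Adj m q) → n ≠ c q := by
      rintro q hq hqm rfl
      rw [H.bl_S hq] at hb
      apply hb
      obtain rfl | hqm := hqm
      · rfl
      · exact H.h.cp_adj hmM (H.hM (H.hSq hq)) hqm
    unfold PP
    by_cases hmP : m ∈ Pa
    · obtain ⟨q, hqS, hmq, h1⟩ := H.h1 m hmP
      have h2 := h1 n hnF
      have h3 := hq q hqS (Or.inr hmq)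
      tauto
    · by_cases hmS : m ∈ Sq
      · have h2 := H.h2 m hmS
        have h3 := hq m hmS (Or.inl rfl)
        have h4 : n ∉ F G M N m := by rw [h2]; simpa using h3
        have h5 : G.Adj m n := by
          by_contra h5; exact h4 (mem_F.2 ⟨hnF, h5⟩)
        have h6 : ¬ 2 ≤ (F G M N m).card := by rw [h2]; simp
        tauto
      · by_cases hF : (F G M N m).Nonempty
        · have h5 := H.h5 m hm hmP hmS hF
          have hsp : ∃ s ∈ Sq, c s = n := by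
            by_contra hcon
            push Not at hcon
            exact hV ⟨mem_V0.2 (Or.inl ⟨hm, hmP, hmS, hF⟩), mem_V0.2 (Or.inr ⟨hnF, hcon⟩)⟩
          obtain ⟨s, hs, rfl⟩ := hsp
          have h6 := h5 s hs
          rw [mem_F] at h6
          have h7 : ∃ t ∈ Sq, c t = c s := ⟨s, hs, rfl⟩
          constructor
          · intro ha
            exact ⟨hmM, hnF, fun h => hmP h.1, fun h => (h6.2 h.2.1).2 ha⟩
          · rintro ⟨_, _, _, h8⟩
            by_contra ha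
            exact h8 ⟨hmP, h6.1 ⟨hnF, ha⟩, h7⟩
        · rw [not_nonempty_iff_eq_empty] at hF
          have h4 : n ∉ F G M N m := by rw [hF]; simp
          have h5 : G.Adj m n := by
            by_contra h5; exact h4 (mem_F.2 ⟨hnF, h5⟩)
          have h6 : ¬ 2 ≤ (F G M N m).card := by rw [hF]; simp
          tauto

lemma Fi.adj_iff (H : Fi G v M N M1 Pa Sq W0 c) {x y : V} (hx : x ∈ M1 ∨ x ∈ N)
    (hx0 : x ∉ V0 G M N M1 Pa Sq c) (hy : y ∈ M1 ∨ y ∈ N)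
    (hxy : bl G M Sq c x ≠ bl G M Sq c y) :
    G.Adj x y ↔ PP G M N Pa Sq W0 c x y ∨ PP G M N Pa Sq W0 c y x := by
  have hdisj : ∀ x, x ∈ M → x ∈ NF G M N → False := fun x h1 h2 => H.h.ne h1 (mem_NF.1 h2).1 rfl
  have P1 : ∀ a b, PP G M N Pa Sq W0 c a b → a ∈ M ∧ b ∈ N := fun a b h => ⟨h.1, (mem_NF.1 h.2.1).1⟩
  obtain hx | hx := hx
  · have hxn : x ∉ N := fun h => H.h.notM h (H.hM hx)
    have h2 : ¬ PP G M N Pa Sq W0 c y x := fun h => hxn (P1 _ _ h).2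
    obtain hy | hy := hy
    · have hyn : y ∉ N := fun h => H.h.notM h (H.hM hy)
      have h3 : ¬ PP G M N Pa Sq W0 c x y := fun h => hyn (P1 _ _ h).2
      have hna : ¬ G.Adj x y := by
        intro ha
        rw [bl_M (H.hM hx), bl_M (H.hM hy)] at hxy
        exact hxy (H.h.cp_adj (H.hM hx) (H.hM hy) ha)
      simp [h2, h3, hna]
    · rw [H.key hx hy hxy (fun h => hx0 h.1)]
      simp [h2]
  · have hxM := H.h.notM hx
    have h2 : ¬ PP G M N Pa Sq W0 c x y := fun h => hxM (P1 _ _ h).1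
    obtain hy | hy := hy
    · rw [G.adj_comm, H.key hy hx hxy.symm (fun h => hx0 h.2)]
      simp [h2]
    · have hyM := H.h.notM hy
      have h3 : ¬ PP G M N Pa Sq W0 c y x := fun h => hyM (P1 _ _ h).1
      have := H.h.ind x hx y hy
      simp [h2, h3, this]

/-- a block is a singleton or contained in a nice set -/
lemma Fi.block (H : Fi G v M N M1 Pa Sq W0 c) {x : V} (hx : x ∈ M1 ∪ N) :
    BD G 8 ((M1 ∪ N).filter (fun y => bl G M Sq c y = bl G M Sq c x)) := by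
  have h1 : (∃ m ∈ M, bl G M Sq c x = cp G M m) ∨ (x ∈ N ∧ bl G M Sq c x = {x}) := by
    rw [mem_union] at hx
    obtain hx | hx := hx
    · exact Or.inl ⟨x, H.hM hx, bl_M (H.hM hx)⟩
    · obtain ⟨_, m, hm, _, h1⟩ | ⟨_, s, hs, _, h1⟩ | ⟨h1, _⟩ := H.cases hx
      · exact Or.inl ⟨m, hm, h1⟩
      · exact Or.inl ⟨s, H.hM (H.hSq hs), h1⟩
      · exact Or.inr ⟨hx, h1⟩
  obtain ⟨m, hm, h1⟩ | ⟨hxN, h1⟩ := h1
  · rw [h1]
    set C : Finset V := (Sq.filter (fun s => s ∈ cp G M m)).image c with hC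
    have hCc : C.card ≤ 2 := card_image_le.trans (H.h6 m hm)
    set A : Finset V := cp G M m ∪ N.filter (fun n => nb G M n = cp G M m) with hA
    have hP : P4Free G A := by
      intro a ha b hb c hc d hd hac had hbd hab hbc hcd
      have hcl : ∀ y ∈ cp G M m, ∀ z ∈ cp G M m, y ≠ z → G.Adj y z := by
        intro y hy z hz hyz
        rw [mem_cp] at hy hz
        obtain ⟨hy, rfl | hy'⟩ := hy
        · obtain ⟨hz, rfl | hz'⟩ := hz
          · exact absurd rfl hyz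
          · exact hz'.symm
        · obtain ⟨hz, rfl | hz'⟩ := hz
          · exact hy'
          · exact H.h.clus y hy m hm z hz hy' hz'.symm hyz
      have hcomp : ∀ y ∈ cp G M m, ∀ z ∈ N, nb G M z = cp G M m → G.Adj y z := by
        intro y hy z hz hzz
        rw [← hzz, mem_nb] at hy
        exact hy.2.symm
      rw [hA, mem_union, mem_filter] at ha hb hc hd
      by_contra hcon
      push Not at hcon
      -- a, c nonadjacent so both in N part
      have haN : a ∈ N ∧ nb G M a = cp G M m := by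
        rcases ha with ha | ha
        · rcases hc with hc | hc
          · exact absurd (hcl a ha c hc hac) hcon.1
          · exact absurd (hcomp a ha c hc.1 hc.2) hcon.1
        · exact ha
      have hcN : c ∈ N ∧ nb G M c = cp G M m := by
        rcases hc with hc | hc
        · exact absurd (hcomp c hc a haN.1 haN.2).symm hcon.1
        · exact hc
      have hdN : d ∈ N ∧ nb G M d = cp G M m := by
        rcases hd with hd | hd
        · exact absurd (hcomp d hd a haN.1 haN.2).symm hcon.2.1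
        · exact hd
      exact H.h.ind c hcN.1 d hdN.1 hcd
    have h2 : BD G 1 A := BD.cograph hP
    have h3 : BD G ((1 + 1) * 2 ^ 2) (A ∪ C) := by
      refine BD.of_sdiff (X := C) ?_ hCc
      exact h2.sub (by intro z hz; simp only [mem_sdiff, mem_union] at hz; tauto)
    refine (h3.sub ?_).mono (by norm_num)
    intro y hy
    rw [mem_filter, mem_union] at hy
    obtain ⟨hy | hy, hyb⟩ := hy
    · rw [bl_M (H.hM hy)] at hyb
      have : y ∈ cp G M m := hyb ▸ self_cp (H.hM hy)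
      simp [hA, this]
    · obtain ⟨hT, m', hm', hym, h4⟩ | ⟨_, s, hs, rfl, h4⟩ | ⟨h4, _⟩ := H.cases hy
      · have h5 := H.h.nbA hy hT hm' hym
        have : nb G M y = cp G M m := by rw [h5, ← h4, hyb]
        simp [hA, hy, this]
      · have : s ∈ cp G M m := by rw [← hyb, h4]; exact self_cp (H.hM (H.hSq hs))
        have h6 : c s ∈ C := by
          rw [hC]; exact mem_image_of_mem _ (mem_filter.2 ⟨hs, this⟩)
        exact mem_union_right _ h6
      · rw [h4] at hyb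
        have : m ∈ ({y} : Finset V) := by rw [hyb]; exact self_cp hm
        rw [mem_singleton] at this
        exact absurd this (H.h.ne hm hy)
  · rw [h1]
    refine ((BD.singleton (G := G) (K := 8) (x := x)).sub ?_)
    intro y hy
    rw [mem_filter, mem_union] at hy
    obtain ⟨hy | hy, hyb⟩ := hy
    · rw [bl_M (H.hM hy)] at hyb
      have : y ∈ ({x} : Finset V) := hyb ▸ self_cp (H.hM hy)
      exact this
    · obtain ⟨hT, m', hm', hym, h4⟩ | ⟨_, s, hs, rfl, h4⟩ | ⟨h4, _⟩ := H.cases hy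
      · have : m' ∈ ({x} : Finset V) := by rw [← hyb, h4]; exact self_cp hm'
        rw [mem_singleton] at this
        exact absurd this (H.h.ne hm' hxN)
      · have : s ∈ ({x} : Finset V) := by rw [← hyb, h4]; exact self_cp (H.hM (H.hSq hs))
        rw [mem_singleton] at this
        exact absurd this (H.h.ne (H.hM (H.hSq hs)) hxN)
      · rw [h4] at hyb
        rw [← hyb]; simp

abbrev Lam : Type := Prop × Prop × Prop × Prop × Prop × Prop

/-- the final step -/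
lemma Fi.final (H : Fi G v M N M1 Pa Sq W0 c) {K0 : ℕ} {B : ℕ → ℕ → ℕ → ℕ}
    (hB : ∀ (V : Type) (G : SimpleGraph V) (Λ β : Type) [Fintype Λ] (K K' : ℕ)
      (V0 W : Finset V) (lab : V → Λ) (F : Λ → Λ → Prop) (b : V → β),
      BD G K V0 → (∀ x ∈ V0, ∀ y ∈ V0, b x = b y → x = y) →
      (∀ x ∈ V0 ∪ W, BD G K' ((V0 ∪ W).filter (fun y => b y = b x))) →
      (∀ x ∈ W, ∀ y ∈ V0 ∪ W, b x ≠ b y → (G.Adj x y ↔ F (lab x) (lab y))) →
      BD G (B K K' (Fintype.card Λ)) (V0 ∪ W))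
    (hK : ∀ (V : Type) (G : SimpleGraph V) (M N : Finset V), Disjoint M N → Ind G M → Ind G N →
      (∀ m ∈ M, ∀ m' ∈ M, 2 ≤ (nb G N m \ nb G N m').card → nb G N m' ⊆ nb G N m) →
      BD G K0 (M ∪ N)) :
    BD G (B K0 8 (Fintype.card Lam)) (M1 ∪ N) := by
  have hsub : V0 G M N M1 Pa Sq c ⊆ M1 ∪ N := by
    intro x hx
    rw [mem_V0, mem_NF] at hx
    rw [mem_union]; tauto
  have hU : V0 G M N M1 Pa Sq c ∪ ((M1 ∪ N) \ V0 G M N M1 Pa Sq c) = M1 ∪ N :=
    union_sdiff_of_subset hsub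
  have hdisj : ∀ x, x ∈ M → x ∈ NF G M N → False := fun x h1 h2 => H.h.ne h1 (mem_NF.1 h2).1 rfl
  rw [← hU]
  refine hB V G Lam (Finset V) K0 8 _ _
    (fun x => (x ∈ M, x ∈ NF G M N, x ∈ Pa, x ∈ W0, 2 ≤ (F G M N x).card, ∃ s ∈ Sq, c s = x))
    (fun l l' => (l.1 ∧ l'.2.1 ∧ ¬ (l.2.2.1 ∧ l'.2.2.2.1) ∧ ¬ (¬ l.2.2.1 ∧ l.2.2.2.2.1 ∧ l'.2.2.2.2.2)) ∨
      (l'.1 ∧ l.2.1 ∧ ¬ (l'.2.2.1 ∧ l.2.2.2.1) ∧ ¬ (¬ l'.2.2.1 ∧ l'.2.2.2.2.1 ∧ l.2.2.2.2.2)))
    (bl G M Sq c) ?_ ?_ ?_ ?_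
  · unfold V0
    apply hK
    · rw [Finset.disjoint_left]
      intro x hx hx'
      rw [mem_filter] at hx hx'
      exact hdisj x (H.hM hx.1) hx'.1
    · intro x hx y hy hxy
      rw [mem_filter] at hx hy
      have := H.h0 x hx.1 y hy.1 hxy hx.2.2.2 hy.2.2.2
      tauto
    · intro x hx y hy
      rw [mem_filter, mem_NF] at hx hy
      exact H.h.ind x hx.1.1 y hy.1.1
    · intro m hm m' hm' hc
      rw [mem_filter] at hm hm'
      by_cases hmm : m = m'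
      · rw [hmm]
      have hna : ¬ G.Adj m' m := by
        intro ha
        have := H.h0 m' hm'.1 m hm.1 ha hm'.2.2.2 hm.2.2.2
        tauto
      set N' := (NF G M N).filter (fun n => ∀ s ∈ Sq, c s ≠ n) with hN'
      have h1 : nb G N' m \ nb G N' m' ⊆ F G M N m' \ F G M N m := by
        intro z hz
        rw [mem_sdiff, mem_nb, mem_nb, hN', mem_filter] at hz
        rw [mem_sdiff, mem_F, mem_F]
        tauto
      have h2 := H.h.rule hna (hc.trans (card_le_card h1))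
      intro z hz
      rw [mem_nb] at hz ⊢
      refine ⟨hz.1, ?_⟩
      by_contra hmz
      have hzN : z ∈ NF G M N := (mem_filter.1 hz.1).1
      have := h2 (mem_F.2 ⟨hzN, hmz⟩)
      exact (mem_F.1 this).2 hz.2
  · intro x hx y hy hxy
    rw [mem_V0] at hx hy
    obtain ⟨hx1, hx2, hx3, hx4⟩ | ⟨hx1, hx2⟩ := hx
    · rw [bl_M (H.hM hx1)] at hxy
      obtain ⟨hy1, hy2, hy3, hy4⟩ | ⟨hy1, hy2⟩ := hy
      · rw [bl_M (H.hM hy1)] at hxy
        have h1 : x ∈ cp G M y := hxy ▸ self_cp (H.hM hx1)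
        rw [mem_cp] at h1
        obtain ⟨_, h1 | h1⟩ := h1
        · exact h1
        · have := H.h0 x hx1 y hy1 h1 hx4 hy4
          tauto
      · rw [mem_NF] at hy1
        obtain ⟨hT, _⟩ | ⟨_, s, hs, hs', _⟩ | ⟨h4, _⟩ := H.cases hy1.1
        · exact absurd hT hy1.2
        · exact absurd hs' (hy2 s hs)
        · rw [h4] at hxy
          have : x ∈ ({y} : Finset V) := hxy ▸ self_cp (H.hM hx1)
          exact mem_singleton.1 this
    · rw [mem_NF] at hx1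
      have h3 : bl G M Sq c x = {x} := by
        obtain ⟨hT, _⟩ | ⟨_, s, hs, hs', _⟩ | ⟨h4, _⟩ := H.cases hx1.1
        · exact absurd hT hx1.2
        · exact absurd hs' (hx2 s hs)
        · exact h4
      rw [h3] at hxy
      obtain ⟨hy1, hy2, hy3, hy4⟩ | ⟨hy1, hy2⟩ := hy
      · rw [bl_M (H.hM hy1)] at hxy
        have : y ∈ ({x} : Finset V) := hxy ▸ self_cp (H.hM hy1)
        exact (mem_singleton.1 this).symm
      · rw [mem_NF] at hy1
        obtain ⟨hT, _⟩ | ⟨_, s, hs, hs', _⟩ | ⟨h4, _⟩ := H.cases hy1.1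
        · exact absurd hT hy1.2
        · exact absurd hs' (hy2 s hs)
        · rw [h4] at hxy
          exact Finset.singleton_injective hxy
  · intro x hx
    rw [hU] at hx ⊢
    convert H.block hx
  · intro x hx y hy hxy
    rw [hU, mem_union] at hy
    rw [mem_sdiff, mem_union] at hx
    exact H.adj_iff hx.1 hx.2 hy hxy

lemma Pr.ne_partner (h : Cfg G v M N) {p q x y : V} (hp : Pr G M N p q) (hx : Pr G M N x y)
    (h1 : x ≠ p) (h2 : x ≠ q) : y ≠ p ∧ y ≠ q := by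
  constructor
  · rintro rfl
    exact h2 (hp.uniq h hx.1 hx.2.2.1.symm)
  · rintro rfl
    exact h1 (hp.symm.uniq h hx.1 hx.2.2.1.symm)

lemma case1 (h : Cfg G v M N) {p q x y : V} (hp : Pr G M N p q) (hx : Pr G M N x y)
    (h1 : x ≠ p) (h2 : x ≠ q) (h3 : 2 ≤ (F G M N p).card) (h4 : 2 ≤ (F G M N q).card) :
    F G M N x ⊆ F G M N p ∪ F G M N q ∧ (F G M N p).card ≤ 2 ∧ (F G M N q).card ≤ 2 ∧
      (∃ n ∈ F G M N x, n ∉ F G M N p) ∧ (∃ n ∈ F G M N p, n ∉ F G M N x) := by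
  obtain ⟨h5, h6⟩ := hp.ne_partner h hx h1 h2
  obtain ⟨s1, s2⟩ := hp.sep h hx.1 h1 h2
  obtain ⟨s3, s4⟩ := hp.sep h hx.2.1 h5 h6
  obtain ⟨nx, hnx⟩ := hx.2.2.2.1
  obtain ⟨ny, hny⟩ := hx.2.2.2.2
  obtain ⟨n1, a1, b1⟩ := h.meet s1.1 h3 hnx
  obtain ⟨n2, a2, b2⟩ := h.meet s2.1 h4 hnx
  obtain ⟨n3, a3, b3⟩ := h.meet s3.1 h3 hny
  obtain ⟨n4, a4, b4⟩ := h.meet s4.1 h4 hny
  have c1 : (F G M N p \ F G M N x).card ≤ 1 := h.rule' s1.1 b2 (hp.symm.disj a2)
  have c2 : (F G M N q \ F G M N x).card ≤ 1 := h.rule' s2.1 b1 (hp.disj a1)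
  have c3 : (F G M N p \ F G M N y).card ≤ 1 := h.rule' s3.1 b4 (hp.symm.disj a4)
  have c4 : (F G M N q \ F G M N y).card ≤ 1 := h.rule' s4.1 b3 (hp.disj a3)
  have gen : ∀ P : Finset V, (P \ F G M N x).card ≤ 1 → (P \ F G M N y).card ≤ 1 → P.card ≤ 2 := by
    intro P e1 e2
    have : P ⊆ (P \ F G M N x) ∪ (P \ F G M N y) := by
      intro z hz
      by_cases hzx : z ∈ F G M N x
      · exact mem_union_right _ (mem_sdiff.2 ⟨hz, hx.disj hzx⟩)
      · exact mem_union_left _ (mem_sdiff.2 ⟨hz, hzx⟩)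
    have := (card_le_card this).trans (card_union_le _ _)
    omega
  have n3x : n3 ∉ F G M N x := hx.symm.disj b3
  have c5 : (F G M N x \ F G M N p).card ≤ 1 := h.rule' (fun hh => s1.1 hh.symm) a3 n3x
  refine ⟨?_, gen _ c1 c3, gen _ c2 c4, ⟨n2, b2, hp.symm.disj a2⟩, ⟨n3, a3, n3x⟩⟩
  intro z hz
  by_cases hzp : z ∈ F G M N p
  · exact mem_union_left _ hzp
  · have e : z = n2 := Finset.card_le_one.1 c5 z (mem_sdiff.2 ⟨hz, hzp⟩) n2
      (mem_sdiff.2 ⟨b2, hp.symm.disj a2⟩)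
    rw [e]; exact mem_union_right _ a2

lemma card1 (h : Cfg G v M N) {p q : V} (hp : Pr G M N p q) (h3 : 2 ≤ (F G M N p).card)
    (h4 : 2 ≤ (F G M N q).card) : (M.filter (fun x => ∃ y, Pr G M N x y)).card ≤ 18 := by
  set Fu := M.filter (fun x => ∃ y, Pr G M N x y) with hFu
  have hsub : Fu ⊆ {p, q} ∪ (Fu \ {p, q}) := by
    intro z hz
    by_cases hh : z ∈ ({p, q} : Finset V)
    · exact mem_union_left _ hh
    · exact mem_union_right _ (mem_sdiff.2 ⟨hz, hh⟩)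
  have h16 : (Fu \ {p, q}).card ≤ 16 := by
    by_cases hne : (Fu \ {p, q}).Nonempty
    · obtain ⟨x0, hx0⟩ := hne
      have hmem : ∀ x ∈ Fu \ {p, q}, (∃ y, Pr G M N x y) ∧ x ≠ p ∧ x ≠ q := by
        intro x hx
        rw [mem_sdiff, hFu, mem_filter] at hx
        simp only [mem_insert, mem_singleton, not_or] at hx
        exact ⟨hx.1.2, hx.2⟩
      obtain ⟨⟨y0, hy0⟩, e1, e2⟩ := hmem x0 hx0
      obtain ⟨_, f1, f2, _⟩ := case1 h hp hy0 e1 e2 h3 h4
      have h5 : (Fu \ {p, q}).card ≤ (F G M N p ∪ F G M N q).powerset.card := by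
        apply Finset.card_le_card_of_injOn (F G M N)
        · intro x hx
          obtain ⟨⟨y, hy⟩, e1, e2⟩ := hmem x hx
          simp only [coe_powerset, Set.mem_preimage, Set.mem_powerset_iff, coe_subset]
          exact (case1 h hp hy e1 e2 h3 h4).1
        · intro x hx x' hx' hxx
          obtain ⟨⟨y, hy⟩, e1, e2⟩ := hmem x hx
          obtain ⟨⟨y', hy'⟩, e1', e2'⟩ := hmem x' hx'
          by_contra hne
          obtain ⟨_, _, _, ⟨n, hn, hn'⟩, ⟨k, hk, hk'⟩⟩ := case1 h hp hy e1 e2 h3 h4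
          have hna : ¬ G.Adj x x' := by
            intro ha
            exact disj hy.1 hy'.1 ha hn (hxx ▸ hn)
          refine h.no3 (m2 := x) (m3 := x') (m4 := p) (n0 := k) (n1 := n) hna hne ?_ ?_ hn (hxx ▸ hn)
            hn' hk hk' (hxx ▸ hk')
          · exact fun hh => (hp.sep h hy.1 e1 e2).1.1 hh.symm
          · exact fun hh => (hp.sep h hy'.1 e1' e2').1.1 hh.symm
      rw [card_powerset] at h5
      have h6 : (F G M N p ∪ F G M N q).card ≤ 4 := (card_union_le _ _).trans (by omega)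
      exact h5.trans ((Nat.pow_le_pow_right (by omega) h6).trans (by norm_num))
    · rw [not_nonempty_iff_eq_empty] at hne
      rw [hne]; simp
  have h2 : ({p, q} : Finset V).card ≤ 2 := card_le_two
  exact (card_le_card hsub).trans ((card_union_le _ _).trans (by omega))

lemma W0_sub (h : Cfg G v M N) {p q p' q' : V} (hp : Pr G M N p q) (hp' : Pr G M N p' q')
    (h1 : 2 ≤ (F G M N p).card) (h2 : 2 ≤ (F G M N p').card) (h3 : (F G M N q).card = 1)
    (h4 : (F G M N q').card = 1) : F G M N p ∪ F G M N q ⊆ F G M N p' ∪ F G M N q' := by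
  by_cases hpp : p' = p
  · subst hpp
    have : q' = q := hp.uniq h hp'.2.1 hp'.2.2.1
    rw [this]
  · have hpq : p' ≠ q := by rintro rfl; omega
    obtain ⟨s1, s2⟩ := hp.sep h hp'.1 hpp hpq
    obtain ⟨h5, h6⟩ := hp.ne_partner h hp' hpp hpq
    obtain ⟨s3, s4⟩ := hp.sep h hp'.2.1 h5 h6
    obtain ⟨b, hb⟩ := Finset.card_eq_one.1 h3
    obtain ⟨b', hb'⟩ := Finset.card_eq_one.1 h4
    obtain ⟨n, hn, hn'⟩ := h.meet (y := b') s3.1 h1 (by rw [hb']; simp)
    obtain ⟨k, hk, hk'⟩ := h.meet (y := b) (fun hh => s2.1 hh.symm) h2 (by rw [hb]; simp)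
    rw [hb', mem_singleton] at hn'
    rw [hb, mem_singleton] at hk'
    subst hn' hk'
    have hkp : k ∉ F G M N p := hp.symm.disj (by rw [hb]; simp)
    have c1 : (F G M N p \ F G M N p').card ≤ 1 := h.rule' s1.1 hk hkp
    have hnp' : n ∉ F G M N p' := hp'.symm.disj (by rw [hb']; simp)
    intro z hz
    rw [mem_union] at hz
    obtain hz | hz := hz
    · by_cases hzp : z ∈ F G M N p'
      · exact mem_union_left _ hzp
      · have e : z = n := Finset.card_le_one.1 c1 z (mem_sdiff.2 ⟨hz, hzp⟩) n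
          (mem_sdiff.2 ⟨hn, hnp'⟩)
        rw [e]; exact mem_union_right _ (by rw [hb']; simp)
    · rw [hb, mem_singleton] at hz
      rw [hz]; exact mem_union_left _ hk

/-- type `b` -/
def TB (G : SimpleGraph V) (M N : Finset V) (r : V) : Prop :=
  (F G M N r).card = 1 ∧ ∃ s, Pr G M N r s ∧ (F G M N s).card = 1

lemma third (h5 : 5 ≤ (M.filter (TB G M N)).card) {T : Finset V} (hT : T.card ≤ 4)
    (hcl : ∀ a ∈ T, ∀ b, Pr G M N a b → b ∈ T) (x : V) :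
    ∃ t, TB G M N t ∧ t ∉ T ∧ ∃ z, F G M N t = {z} ∧ z ≠ x := by
  have h1 : ∃ t ∈ M.filter (TB G M N), t ∉ T := by
    by_contra hcon
    push Not at hcon
    have := card_le_card (show M.filter (TB G M N) ⊆ T from hcon)
    omega
  obtain ⟨t, ht, htT⟩ := h1
  rw [mem_filter] at ht
  obtain ⟨htM, ht1, u, hu, hu1⟩ := ht
  obtain ⟨z, hz⟩ := Finset.card_eq_one.1 ht1
  obtain ⟨z', hz'⟩ := Finset.card_eq_one.1 hu1
  by_cases hzx : z = x
  · refine ⟨u, ⟨hu1, t, hu.symm, ht1⟩, fun huT => htT (hcl u huT t hu.symm), z', hz', ?_⟩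
    rintro rfl
    have : z' ∈ F G M N t := by rw [hz, hzx]; simp
    exact hu.disj this (by rw [hz']; simp)
  · exact ⟨t, ⟨ht1, u, hu, hu1⟩, htT, z, hz, hzx⟩

lemma TB.mem {r : V} (h : TB G M N r) : r ∈ M := h.2.choose_spec.1.1

/-- choice of the missed vertex -/
noncomputable def cc (G : SimpleGraph V) (M N : Finset V) (x : V) : V :=
  if h : (F G M N x).Nonempty then h.choose else x

lemma cc_spec {x : V} (h : (F G M N x).card = 1) : F G M N x = {cc G M N x} := by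
  obtain ⟨z, hz⟩ := Finset.card_eq_one.1 h
  have hne : (F G M N x).Nonempty := by rw [hz]; simp
  have : cc G M N x ∈ F G M N x := by rw [cc, dif_pos hne]; exact hne.choose_spec
  rw [hz, mem_singleton] at this
  rw [this]; exact hz

lemma full_nonadj {m s s' : V} (hs : Pr G M N s s') (hm : m ∈ M)
    (hF : (F G M N m).Nonempty) (hms : G.Adj m s) : Pr G M N m s :=
  ⟨hm, hs.1, hms, hF, hs.2.2.2.1⟩

lemma case2 (h : Cfg G v M N)
    (hno : ∀ p q, Pr G M N p q → 2 ≤ (F G M N p).card → (F G M N q).card = 1) :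
    ∃ X Pa Sq W0 : Finset V, ∃ c : V → V, X.card ≤ 18 ∧ Fi G v M N (M \ X) Pa Sq W0 c := by
  -- type a
  set Pa : Finset V := M.filter (fun p => 2 ≤ (F G M N p).card ∧ ∃ q, Pr G M N p q) with hPa
  set Qa : Finset V := M.filter (fun q => ∃ p, 2 ≤ (F G M N p).card ∧ Pr G M N p q) with hQa
  set Rb0 : Finset V := M.filter (TB G M N) with hRb0
  obtain ⟨Rb, X, hR1, hX1, hRX, hRX', hXc, hR5⟩ : ∃ Rb X : Finset V, Rb ⊆ Rb0 ∧ X ⊆ Rb0 ∧
      (∀ x ∈ Rb0, x ∈ Rb ∨ x ∈ X) ∧ (∀ x ∈ Rb, x ∉ X) ∧ X.card ≤ 18 ∧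
      (∀ x ∈ Rb, 5 ≤ Rb0.card) := by
    by_cases hc : Rb0.card ≤ 4
    · exact ⟨∅, Rb0, by simp, Subset.refl _, fun x hx => Or.inr hx, by simp, by omega, by simp⟩
    · exact ⟨Rb0, ∅, Subset.refl _, by simp, fun x hx => Or.inl hx, by simp, by simp,
        fun _ _ => by omega⟩
  have hQ1 : ∀ s ∈ Qa, (F G M N s).card = 1 ∧ ∃ p, 2 ≤ (F G M N p).card ∧ Pr G M N p s := by
    intro s hs
    rw [hQa, mem_filter] at hs
    obtain ⟨hs, p, hp, hps⟩ := hs
    exact ⟨hno p s hps hp, p, hp, hps⟩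
  have hR' : ∀ s ∈ Rb, TB G M N s := fun s hs => (mem_filter.1 (hR1 hs)).2
  have hX' : ∀ s ∈ X, TB G M N s := fun s hs => (mem_filter.1 (hX1 hs)).2
  have hP1 : ∀ p ∈ Pa, 2 ≤ (F G M N p).card ∧ ∃ q, Pr G M N p q := fun p hp => (mem_filter.1 hp).2
  have hS1 : ∀ s ∈ Qa ∪ Rb, (F G M N s).card = 1 := by
    intro s hs
    obtain hs | hs := mem_union.1 hs
    · exact (hQ1 s hs).1
    · exact (hR' s hs).1
  have hSfull : ∀ s ∈ Qa ∪ Rb, ∃ s', Pr G M N s s' := by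
    intro s hs
    obtain hs | hs := mem_union.1 hs
    · obtain ⟨_, p, _, hp⟩ := hQ1 s hs; exact ⟨p, hp.symm⟩
    · obtain ⟨_, s', hs', _⟩ := hR' s hs; exact ⟨s', hs'⟩
  have hPX : ∀ p ∈ Pa, p ∉ X := by
    intro p hp hpX
    have h1 := (hX' p hpX).1
    have h2 := (hP1 p hp).1
    omega
  have hQX : ∀ q ∈ Qa, q ∉ X := by
    intro q hq hqX
    obtain ⟨_, p, hp, hpq⟩ := hQ1 q hq
    obtain ⟨_, s, hs, hs1⟩ := hX' q hqX
    have : s = p := hpq.symm.uniq h hs.2.1 hs.2.2.1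
    subst this; omega
  -- two adjacent vertices of M1 with nonempty F
  have hful : ∀ m ∈ M \ X, ∀ m' ∈ M, Pr G M N m m' → m ∈ Pa ∨ m ∈ Qa ∪ Rb := by
    intro m hm m' hm' hmm
    rw [mem_sdiff] at hm
    have c1 : 1 ≤ (F G M N m).card := hmm.2.2.2.1.card_pos
    have c2 : 1 ≤ (F G M N m').card := hmm.2.2.2.2.card_pos
    by_cases h2 : 2 ≤ (F G M N m).card
    · exact Or.inl (mem_filter.2 ⟨hm.1, h2, m', hmm⟩)
    · by_cases h3 : 2 ≤ (F G M N m').card
      · exact Or.inr (mem_union_left _ (mem_filter.2 ⟨hm.1, m', h3, hmm.symm⟩))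
      · have : TB G M N m := ⟨by omega, m', hmm, by omega⟩
        obtain h4 | h4 := hRX m (mem_filter.2 ⟨hm.1, this⟩)
        · exact Or.inr (mem_union_right _ h4)
        · exact absurd h4 hm.2
  -- W0
  obtain ⟨W0, hW0⟩ : ∃ W0 : Finset V, ∀ p q, Pr G M N p q → 2 ≤ (F G M N p).card →
      F G M N p ∪ F G M N q = W0 := by
    by_cases hex : ∃ p q, Pr G M N p q ∧ 2 ≤ (F G M N p).card
    · obtain ⟨p0, q0, hp0, hc0⟩ := hex
      refine ⟨F G M N p0 ∪ F G M N q0, fun p q hp hc => ?_⟩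
      exact Subset.antisymm (W0_sub h hp hp0 hc hc0 (hno _ _ hp hc) (hno _ _ hp0 hc0))
        (W0_sub h hp0 hp hc0 hc (hno _ _ hp0 hc0) (hno _ _ hp hc))
    · exact ⟨∅, fun p q hp hc => absurd ⟨p, q, hp, hc⟩ hex⟩
  have hspec : ∀ s ∈ Qa ∪ Rb, F G M N s = {cc G M N s} := fun s hs => cc_spec (hS1 s hs)
  have hsM : ∀ s ∈ Qa ∪ Rb, s ∈ M := by
    intro s hs
    obtain ⟨s', hs'⟩ := hSfull s hs; exact hs'.1
  -- two special vertices with the same missed vertex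
  have hPa_in : ∀ p q, Pr G M N p q → 2 ≤ (F G M N p).card → ∀ s, (F G M N s).card = 1 →
      s ∈ M → s ≠ q → ¬ G.Adj p s → cc G M N s ∈ F G M N p := by
    intro p q hp hc s hs hsM hsq hps
    have h1 := cc_spec hs
    obtain ⟨n, hn, hn'⟩ := h.meet (y := cc G M N s) hps hc (by rw [h1]; simp)
    rw [h1, mem_singleton] at hn'
    exact hn' ▸ hn
  refine ⟨X, Pa, Qa ∪ Rb, W0, cc G M N, hXc, h, sdiff_subset, ?_, ?_, ?_, ?_, ?_, hspec, ?_, ?_, ?_⟩
  · intro p hp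
    exact mem_sdiff.2 ⟨(mem_filter.1 hp).1, hPX p hp⟩
  · intro s hs
    obtain hs' | hs' := mem_union.1 hs
    · exact mem_sdiff.2 ⟨hsM s hs, hQX s hs'⟩
    · exact mem_sdiff.2 ⟨hsM s hs, hRX' s hs'⟩
  · intro x hx hx'
    have := (hP1 x hx).1
    have := hS1 x hx'
    omega
  · intro m hm m' hm' hmm h1 h2
    exact hful m hm m' (mem_sdiff.1 hm').1 ⟨(mem_sdiff.1 hm).1, (mem_sdiff.1 hm').1, hmm, h1, h2⟩
  · intro p hp
    obtain ⟨hc, q, hq⟩ := hP1 p hp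
    have hqQ : q ∈ Qa := mem_filter.2 ⟨hq.2.1, p, hc, hq⟩
    refine ⟨q, mem_union_left _ hqQ, hq.2.2.1, fun n hn => ?_⟩
    have h1 := hW0 p q hq hc
    have h2 := hspec q (mem_union_left _ hqQ)
    rw [h2] at h1
    have h3 : cc G M N q ∉ F G M N p := hq.symm.disj (by rw [h2]; simp)
    have h4 : ¬ G.Adj p n ↔ n ∈ F G M N p := by rw [mem_F]; tauto
    rw [h4, ← h1, mem_union, mem_singleton]
    constructor
    · intro h5; exact ⟨Or.inl h5, fun h6 => h3 (h6 ▸ h5)⟩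
    · rintro ⟨h5 | h5, h6⟩
      · exact h5
      · exact absurd h5 h6
  · -- injectivity
    have key : ∀ s ∈ Qa, ∀ t ∈ Qa ∪ Rb, cc G M N s = cc G M N t → s = t := by
      intro s hs t ht hst
      by_contra hne
      obtain ⟨_, p, hp, hps⟩ := hQ1 s hs
      have h2 := hspec s (mem_union_left _ hs)
      have h1 : cc G M N t ∈ F G M N p := by
        refine hPa_in p s hps hp t (hS1 t ht) (hsM t ht) (Ne.symm hne) ?_
        intro hpt
        exact hne (hps.uniq h (hsM t ht) hpt).symm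
      rw [← hst] at h1
      exact hps.disj h1 (by rw [h2]; simp)
    intro s hs t ht hst
    obtain hs' | hs' := mem_union.1 hs
    · exact key s hs' t ht hst
    · obtain ht' | ht' := mem_union.1 ht
      · exact (key t ht' s hs hst.symm).symm
      · by_contra hne
        have h5 := hR5 s hs'
        obtain ⟨s1, hs1⟩ := hSfull s hs
        obtain ⟨t1, ht1⟩ := hSfull t ht
        obtain ⟨u, hu, huT, z, hz, hzx⟩ := third (T := {s, s1, t, t1}) h5 card_le_four (by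
          intro a ha b hab
          simp only [mem_insert, mem_singleton] at ha ⊢
          obtain rfl | rfl | rfl | rfl := ha
          · exact Or.inr (Or.inl (hs1.uniq h hab.2.1 hab.2.2.1))
          · exact Or.inl (hs1.symm.uniq h hab.2.1 hab.2.2.1)
          · exact Or.inr (Or.inr (Or.inr (ht1.uniq h hab.2.1 hab.2.2.1)))
          · exact Or.inr (Or.inr (Or.inl (ht1.symm.uniq h hab.2.1 hab.2.2.1)))) (cc G M N s)
        simp only [mem_insert, mem_singleton, not_or] at huT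
        obtain ⟨w1, w2, w3, w4⟩ := huT
        have g1 := hspec s hs
        have g2 := hspec t ht
        have hna : ¬ G.Adj s t := by
          intro ha
          have : cc G M N s ∈ F G M N s := by rw [g1]; simp
          exact disj (hsM s hs) (hsM t ht) ha this (by rw [g2, hst]; simp)
        refine h.no3 (m2 := s) (m3 := t) (m4 := u) (n1 := cc G M N s) (n0 := z) hna hne
          (hs1.sep h hu.mem w1 w2).1.1 (ht1.sep h hu.mem w3 w4).1.1 (by rw [g1]; simp)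
          (by rw [g2, hst]; simp) (by rw [hz]; simpa using hzx.symm) (by rw [hz]; simp)
          (by rw [g1]; simpa using hzx) (by rw [g2, ← hst]; simpa using hzx)
  · intro m hm hmP hmS hF s hs
    have hmM := (mem_sdiff.1 hm).1
    have hnf : ∀ t t', Pr G M N t t' → ¬ G.Adj m t := by
      intro t t' ht hmt
      have := hful m hm t ht.1 (full_nonadj ht hmM hF hmt)
      tauto
    obtain ⟨s', hs'⟩ := hSfull s hs
    have hms : ¬ G.Adj m s := hnf s s' hs'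
    have hms' : m ≠ s := fun hh => hmS (hh ▸ hs)
    have g1 := hspec s hs
    constructor
    · intro hin
      by_contra hlt
      have hc1 : (F G M N m).card = 1 := by
        have := hF.card_pos; omega
      obtain ⟨y, hy⟩ := Finset.card_eq_one.1 hc1
      rw [hy, mem_singleton] at hin
      rw [← hin] at hy
      obtain hsq | hsr := mem_union.1 hs
      · obtain ⟨_, p, hp, hps⟩ := hQ1 s hsq
        obtain ⟨n, hn, hn'⟩ := h.meet (m := p) (x := m) (y := cc G M N s)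
          (fun hh => hnf p s hps hh.symm) hp (by rw [hy]; simp)
        rw [hy, ← g1] at hn'
        exact hps.disj hn hn'
      · have h5 := hR5 s hsr
        obtain ⟨u, hu, huT, z, hz, hzx⟩ := third (T := {s, s'}) h5 (card_le_two.trans (by omega)) (by
          intro a ha b hab
          simp only [mem_insert, mem_singleton] at ha ⊢
          obtain rfl | rfl := ha
          · exact Or.inr (hs'.uniq h hab.2.1 hab.2.2.1)
          · exact Or.inl (hs'.symm.uniq h hab.2.1 hab.2.2.1)) (cc G M N s)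
        simp only [mem_insert, mem_singleton, not_or] at huT
        obtain ⟨w1, w2⟩ := huT
        obtain ⟨_, u', hu', _⟩ := id hu
        refine h.no3 (m2 := m) (m3 := s) (m4 := u) (n1 := cc G M N s) (n0 := z) hms hms'
          (hnf u u' hu') (hs'.sep h hu.mem w1 w2).1.1 (by rw [hy]; simp)
          (by rw [g1]; simp) (by rw [hz]; simpa using hzx.symm) (by rw [hz]; simp)
          (by rw [hy]; simpa using hzx) (by rw [g1]; simpa using hzx)
    · intro hc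
      obtain ⟨n, hn, hn'⟩ := h.meet (y := cc G M N s) hms hc (by rw [g1]; simp)
      rw [g1, mem_singleton] at hn'
      exact hn' ▸ hn
  · intro m hm
    by_cases hne : ((Qa ∪ Rb).filter (fun s => s ∈ cp G M m)).Nonempty
    · obtain ⟨s, hs⟩ := hne
      rw [mem_filter] at hs
      obtain ⟨s', hs'⟩ := hSfull s hs.1
      have e := h.cp_eq hm hs.2
      refine (card_le_card (t := {s, s'}) ?_).trans card_le_two
      intro t ht
      rw [mem_filter, ← e, mem_cp] at ht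
      simp only [mem_insert, mem_singleton]
      obtain ⟨_, htM, h1 | h1⟩ := ht
      · exact Or.inl h1
      · exact Or.inr (hs'.uniq h htM h1.symm)
    · rw [not_nonempty_iff_eq_empty] at hne
      rw [hne]; simp

theorem gamma_stmt (hA : AttachStmt) (hB : BipStmt) : GammaStmt := by
  obtain ⟨B, hB'⟩ := hA
  obtain ⟨K0, hK⟩ := hB
  refine ⟨(B K0 8 (Fintype.card Lam) + 1) * 2 ^ 18, ?_⟩
  intro V G hg hp v M N hZ hcl h3
  have h : Cfg G v M N := ⟨hg, hp, hZ.1, hZ.2.1, hZ.2.2.1, hcl, h3⟩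
  obtain ⟨X, Pa, Sq, W0, c, hX, H⟩ : ∃ X Pa Sq W0 : Finset V, ∃ c : V → V, X.card ≤ 18 ∧
      Fi G v M N (M \ X) Pa Sq W0 c := by
    by_cases hex : ∃ p q, Pr G M N p q ∧ 2 ≤ (F G M N p).card ∧ 2 ≤ (F G M N q).card
    · obtain ⟨p, q, hpq, h1, h2⟩ := hex
      refine ⟨M.filter (fun x => ∃ y, Pr G M N x y), ∅, ∅, ∅, id, card1 h hpq h1 h2, h, sdiff_subset,
        by simp, by simp, by simp, ?_, by simp, by simp, by simp, by simp, by simp⟩
      intro m hm m' hm' hmm h1 h2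
      rw [mem_sdiff, mem_filter] at hm
      exact absurd ⟨hm.1, m', hm.1, (mem_sdiff.1 hm').1, hmm, h1, h2⟩ hm.2
    · apply case2 h
      intro p q hpq h1
      have h2 : ¬ 2 ≤ (F G M N q).card := fun h2 => hex ⟨p, q, hpq, h1, h2⟩
      have := hpq.2.2.2.2.card_pos
      omega
  have h1 := H.final hB' hK
  refine BD.of_sdiff (X := X) (h1.sub ?_) hX
  intro z hz
  simp only [mem_sdiff, mem_union] at hz ⊢
  tauto

end Pool.Agent.H814R2.Gam
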